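import Pool.Agent.helper51.QS.Defs
import Pool.Agent.helper16.PC.CONR
import Pool.Agent.helper13.PC.ASA

/-!
# Project qs (MP_74cfa5_ag): small library on Taylor expansions, monomial valuations and `Inn`
-/

set_option autoImplicit false

namespace Pool.Agent.QS

open Pool.Agent.PC

universe u

section taylor

variable {k : Type u} [Field k] {A : Type u} [CommRing A] [Algebra k A] {n : ℕ} {m : Ideal A}
  {y : Fin n → A} {φ : A →ₐ[k] MvPowerSeries (Fin n) k}

/-- the Taylor expansion of a polynomial in the coordinates -/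
theorem Lib_aeval (hT : Taylor m y φ) (f : MvPolynomial (Fin n) k) :
    φ (MvPolynomial.aeval y f) = (f : MvPowerSeries (Fin n) k) := by
  have h1 : φ.comp (MvPolynomial.aeval y) = MvPolynomial.coeToMvPowerSeries.algHom (R := k) k := by
    refine MvPolynomial.algHom_ext fun i => ?_
    rw [AlgHom.comp_apply, MvPolynomial.aeval_X, hT.1 i, MvPolynomial.coeToMvPowerSeries.algHom_apply,
      MvPolynomial.coe_X]
    simp
  have h2 := AlgHom.congr_fun h1 f
  rw [AlgHom.comp_apply, MvPolynomial.coeToMvPowerSeries.algHom_apply] at h2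
  rw [h2]
  simp

/-- the truncation of the Taylor expansion below degree `N` approximates `b` modulo `m ^ N` -/
theorem Lib_trunc (hT : Taylor m y φ) (b : A) (N : ℕ) :
    b - MvPolynomial.aeval y (MvPowerSeries.truncTotal N (φ b)) ∈ m ^ N := by
  rw [hT.2 N]
  intro α hα
  rw [map_sub, map_sub, Lib_aeval hT, MvPolynomial.coeff_coe, MvPowerSeries.coeff_truncTotal _ hα, sub_self]

/-- the elements of `m` are those with constant coefficient `0` -/
theorem Lib_mem (hT : Taylor m y φ) (b : A) : b ∈ m ↔ MvPowerSeries.coeff (0 : Fin n →₀ ℕ) (φ b) = 0 := by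
  have h := hT.2 1 b
  rw [pow_one] at h
  rw [h]
  constructor
  · intro h1
    exact h1 0 (by rw [map_zero]; exact one_pos)
  · intro h1 α hα
    have h2 : α.degree = 0 := by omega
    rw [Finsupp.degree_eq_zero_iff] at h2
    rw [h2]
    exact h1

/-- `φ b` is a unit if `b` is not in `m` -/
theorem Lib_unit (hT : Taylor m y φ) (b : A) (hb : b ∉ m) : IsUnit (φ b) := by
  rw [MvPowerSeries.isUnit_iff_constantCoeff]
  rw [Lib_mem hT] at hb
  exact (Ne.isUnit hb)

theorem Lib_y_mem (hT : Taylor m y φ) (i : Fin n) : y i ∈ m := by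
  rw [Lib_mem hT, hT.1 i, MvPowerSeries.coeff_zero_X]

/-- `φ` is injective -/
theorem Lib_inj [IsDomain A] [IsNoetherianRing A] (hm : m ≠ ⊤) (hT : Taylor m y φ) :
    Function.Injective φ := by
  rw [injective_iff_map_eq_zero]
  intro b hb
  have h1 : b ∈ ⨅ N : ℕ, m ^ N := by
    rw [Ideal.mem_iInf]
    intro N
    rw [hT.2 N]
    intro α _
    rw [hb, map_zero]
  rwa [Ideal.iInf_pow_eq_bot_of_isDomain m hm] at h1

/-- polynomials approximate `σ`-stable statements: if all `σ y_i = y_i` then `σ b - b ∈ m ^ N` -/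
theorem Lib_sigma (σ : A →ₐ[k] A) (hσ : ∀ a ∈ m, σ a ∈ m) (N : ℕ) (b : A) (hb : b ∈ m ^ N) :
    σ b - b ∈ m ^ N := by
  refine Ideal.sub_mem _ ?_ hb
  have h1 : (m ^ N).map σ ≤ m ^ N := by
    rw [Ideal.map_pow]
    refine Ideal.pow_right_mono ?_ N
    rw [Ideal.map_le_iff_le_comap]
    exact fun a ha => hσ a ha
  exact h1 (Ideal.mem_map_of_mem σ hb)

end taylor

section weight

variable {k : Type u} [Field k] {A : Type u} [CommRing A] [Algebra k A] {n : ℕ} {m : Ideal A}
  {y : Fin n → A} {φ : A →ₐ[k] MvPowerSeries (Fin n) k} {K : Type u} [Field K] [Algebra A K]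
  {w : Fin n → ℕ} {v : K → ℤ}

theorem Lib_W0 (hW : IsW φ w v) (a : A) : Ge v 0 (algebraMap A K a) := by
  have h := (hW.2 a 0).2 (fun α hα => absurd hα (Nat.not_lt_zero _))
  exact h

/-- the monomials of `φ b` have weight at least `v b` -/
theorem Lib_W (hW : IsW φ w v) (r : ℤ) (b : A) (hb : Ge v r (algebraMap A K b)) (α : Fin n →₀ ℕ)
    (hα : MvPowerSeries.coeff α (φ b) ≠ 0) : r ≤ (Finsupp.weight w α : ℕ) := by
  by_contra hcon
  have h0 : (0 : ℤ) ≤ r := by omega
  obtain ⟨r', rfl⟩ := Int.eq_ofNat_of_zero_le h0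
  exact hα ((hW.2 b r').1 hb α (by omega))

/-- elements of `m ^ N` have value at least `c N` if all weights are at least `c` -/
theorem Lib_WN (hT : Taylor m y φ) (hW : IsW φ w v) (c : ℕ) (hc : ∀ i, c ≤ w i) (N : ℕ) (b : A) (hb : b ∈ m ^ N) :
    Ge v ((c * N : ℕ) : ℤ) (algebraMap A K b) := by
  rw [hW.2]
  intro α hα
  have h1 := (hT.2 N b).1 hb α
  by_contra hne
  have h2 : ¬ (α.degree < N) := fun h => hne (h1 h)
  have h3 : c * α.degree ≤ Finsupp.weight w α := by
    rw [Finsupp.weight_apply, Finsupp.degree_eq_sum, Finsupp.sum_fintype _ _ (fun i => zero_smul ℕ (w i)),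
      Finset.mul_sum]
    refine Finset.sum_le_sum fun i _ => ?_
    rw [smul_eq_mul, mul_comm]
    exact Nat.mul_le_mul_left _ (hc i)
  have h4 : c * N ≤ c * α.degree := Nat.mul_le_mul_left _ (by omega)
  omega

/-- values of the coordinates -/
theorem Lib_Wy (hT : Taylor m y φ) (hW : IsW φ w v) (i : Fin n) :
    Ge v (w i) (algebraMap A K (y i)) := by
  rw [hW.2, hT.1 i]
  intro α hα
  rw [MvPowerSeries.coeff_X]
  rw [if_neg]
  rintro rfl
  rw [Finsupp.weight_single] at hα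
  simp at hα

end weight

section inn

variable {A : Type u} [CommRing A] {Q J : Ideal A}

theorem Lib_inn_of_mem (hQ : Q ≠ ⊤) {a : A} (ha : a ∈ J) : Inn Q J a :=
  ⟨1, fun h => hQ ((Ideal.eq_top_iff_one _).2 h), by rwa [one_mul]⟩

theorem Lib_inn_mono {Q' J' : Ideal A} (hQ : Q ≤ Q') (hJ : J' ≤ J) {a : A} (h : Inn Q' J' a) : Inn Q J a := by
  obtain ⟨s, hs, h1⟩ := h
  exact ⟨s, fun h2 => hs (hQ h2), hJ h1⟩

theorem Lib_inn_add (hQ : Q.IsPrime) {a b : A} (ha : Inn Q J a) (hb : Inn Q J b) : Inn Q J (a + b) := by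
  obtain ⟨s, hs, h1⟩ := ha
  obtain ⟨t, ht, h2⟩ := hb
  refine ⟨s * t, fun h => (hQ.mem_or_mem h).elim hs ht, ?_⟩
  have h3 : s * t * (a + b) = t * (s * a) + s * (t * b) := by ring
  rw [h3]
  exact J.add_mem (J.mul_mem_left _ h1) (J.mul_mem_left _ h2)

theorem Lib_inn_mul {a : A} (c : A) (ha : Inn Q J a) : Inn Q J (c * a) := by
  obtain ⟨s, hs, h1⟩ := ha
  refine ⟨s, hs, ?_⟩
  have h3 : s * (c * a) = c * (s * a) := by ring
  rw [h3]
  exact J.mul_mem_left _ h1

theorem Lib_inn_cancel (hQ : Q.IsPrime) {s a : A} (hs : s ∉ Q) (h : Inn Q J (s * a)) : Inn Q J a := by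
  obtain ⟨t, ht, h1⟩ := h
  refine ⟨t * s, fun h2 => (hQ.mem_or_mem h2).elim ht hs, ?_⟩
  rwa [mul_assoc]

end inn

end Pool.Agent.QS
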