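import Pool.Agent.helper51.QS.SpecA

/-!
# Row qs:KDI: the differentials of a function field
-/

set_option autoImplicit false

namespace Pool.Agent.QS

open Pool.Agent.PC

universe u

theorem KDI2 : KDI_stmt.{u} := by
  intro k K _ _ _ _ _ n x hx
  classical
  obtain ⟨s, hs, hsep⟩ := exists_isTranscendenceBasis_and_isSeparable_of_perfectField k K
  have hcard : Fintype.card s = n := by
    have h1 := hx.lift_cardinalMk_eq hs
    simpa using h1.symm
  have hrange : Set.range ((↑) : s → K) = (s : Set K) := Subtype.range_coe
  have hsep' : Algebra.IsSeparable (IntermediateField.adjoin k (Set.range ((↑) : s → K))) K := by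
    rw [hrange]; exact hsep
  obtain ⟨e⟩ : Nonempty (FractionRing (MvPolynomial s k) ≃ₐ[k]
    (IntermediateField.adjoin k (Set.range ((↑) : s → K)))) := ⟨hs.1.aevalEquivField⟩
  generalize (IntermediateField.adjoin k (Set.range ((↑) : s → K))) = E at hsep' e
  let _ : Algebra (MvPolynomial s k) E :=
    (e.toAlgHom.toRingHom.comp (algebraMap (MvPolynomial s k) (FractionRing (MvPolynomial s k)))).toAlgebra
  have h0 : IsScalarTower k (MvPolynomial s k) E := by
    refine IsScalarTower.of_algebraMap_eq fun c => ?_
    change _ = e (algebraMap (MvPolynomial s k) (FractionRing (MvPolynomial s k)) (algebraMap k _ c))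
    rw [← IsScalarTower.algebraMap_apply, AlgEquiv.commutes]
  let e' : FractionRing (MvPolynomial s k) ≃ₐ[MvPolynomial s k] E :=
    AlgEquiv.ofRingEquiv (f := e.toRingEquiv) (fun r => rfl)
  have h1 : IsFractionRing (MvPolynomial s k) E := IsLocalization.isLocalization_of_algEquiv _ e'
  let _ : Algebra (MvPolynomial s k) K := ((algebraMap E K).comp (algebraMap (MvPolynomial s k) E)).toAlgebra
  have h2 : IsScalarTower (MvPolynomial s k) E K := IsScalarTower.of_algebraMap_eq fun _ => rfl
  have h3 : IsScalarTower k (MvPolynomial s k) K := by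
    refine IsScalarTower.of_algebraMap_eq fun c => ?_
    rw [IsScalarTower.algebraMap_apply (MvPolynomial s k) E K, ← IsScalarTower.algebraMap_apply k (MvPolynomial s k) E,
      ← IsScalarTower.algebraMap_apply k E K]
  have h4 : Algebra.FormallyEtale (MvPolynomial s k) E := Algebra.FormallyEtale.of_isLocalization
    (nonZeroDivisors (MvPolynomial s k))
  have h5 : Algebra.FormallyEtale E K := Algebra.FormallyEtale.of_isSeparable E K
  have h6 : Algebra.FormallyEtale (MvPolynomial s k) K := Algebra.FormallyEtale.comp (MvPolynomial s k) E K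
  obtain ⟨b⟩ : Nonempty (Module.Basis s K (Ω[K⁄k])) :=
    ⟨(Algebra.TensorProduct.basis K (KaehlerDifferential.mvPolynomialBasis k s)).map
      (KaehlerDifferential.tensorKaehlerEquivOfFormallyEtale k (MvPolynomial s k) K)⟩
  refine ⟨Module.Finite.of_basis b, ?_⟩
  rw [Module.finrank_eq_card_basis b, hcard]

end Pool.Agent.QS
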