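import Pool.Agent.helper51.QS.SpecA
import Pool.Agent.helper16.PC.CONR
import Pool.Agent.helper13.PC.ASA

/-!
# Row qs:LDR (MP_74cfa5_ag): the truncated logarithm of an automorphism of order `p`
-/

set_option autoImplicit false

namespace Pool.Agent.QS

open Pool.Agent.PC Finset

universe u

section prime

variable {p : ℕ} [Fact p.Prime]

theorem LDR_range (f : ZMod p → ZMod p) : ∑ i ∈ range p, f (i : ZMod p) = ∑ x : ZMod p, f x := by
  refine Finset.sum_bij (fun i _ => (i : ZMod p)) (fun i _ => Finset.mem_univ _) ?_ ?_ (fun i _ => rfl)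
  · intro i hi j hj h
    rw [Finset.mem_range] at hi hj
    have h1 := (ZMod.natCast_eq_natCast_iff' i j p).1 h
    rwa [Nat.mod_eq_of_lt hi, Nat.mod_eq_of_lt hj] at h1
  · intro x _
    exact ⟨x.val, Finset.mem_range.2 (ZMod.val_lt x), ZMod.natCast_zmod_val x⟩

theorem LDR_poly (P : Polynomial (ZMod p)) (h : P.natDegree < p - 1) :
    ∑ i ∈ range p, P.eval (i : ZMod p) = 0 := by
  rw [LDR_range fun x => P.eval x]
  simp_rw [Polynomial.eval_eq_sum_range]
  rw [Finset.sum_comm]
  refine Finset.sum_eq_zero fun j hj => ?_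
  rw [← Finset.mul_sum, FiniteField.sum_pow_lt_card_sub_one, mul_zero]
  rw [ZMod.card p]
  rw [Finset.mem_range] at hj
  omega

theorem LDR_c (m l : ℕ) (hm : 1 ≤ m) (hl : 1 ≤ l) (h : m + l < p) :
    ∑ i ∈ range p, (i : ZMod p)⁻¹ * ((i.choose m : ZMod p) * (i.choose l : ZMod p)) = 0 := by
  obtain ⟨m', rfl⟩ : ∃ m', m = m' + 1 := ⟨m - 1, by omega⟩
  obtain ⟨l', rfl⟩ : ∃ l', l = l' + 1 := ⟨l - 1, by omega⟩
  set q : Polynomial (ZMod p) := (descPochhammer (ZMod p) m').comp (Polynomial.X - 1) *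
    descPochhammer (ZMod p) (l' + 1) with hq
  have hdeg : q.natDegree < p - 1 := by
    have h1 : q.natDegree ≤ m' + (l' + 1) := by
      refine Polynomial.natDegree_mul_le.trans ?_
      have h2 : ((descPochhammer (ZMod p) m').comp (Polynomial.X - 1)).natDegree ≤ m' := by
        refine Polynomial.natDegree_comp_le.trans ?_
        rw [descPochhammer_natDegree]
        have h3 : (Polynomial.X - 1 : Polynomial (ZMod p)).natDegree ≤ 1 := by
          have h4 := Polynomial.natDegree_X_sub_C_le (1 : ZMod p)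
          rwa [map_one] at h4
        calc m' * (Polynomial.X - 1 : Polynomial (ZMod p)).natDegree ≤ m' * 1 := Nat.mul_le_mul_left _ h3
          _ = m' := mul_one _
      rw [descPochhammer_natDegree]
      omega
    omega
  have hterm : ∀ i : ℕ, (i : ZMod p)⁻¹ * ((i.choose (m' + 1) : ZMod p) * (i.choose (l' + 1) : ZMod p)) *
      (((m' + 1).factorial : ZMod p) * ((l' + 1).factorial : ZMod p)) = q.eval (i : ZMod p) := by
    intro i
    have e1 : (descPochhammer (ZMod p) (m' + 1)).eval (i : ZMod p) =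
        ((m' + 1).factorial : ZMod p) * (i.choose (m' + 1) : ZMod p) := by
      rw [descPochhammer_eval_eq_descFactorial, Nat.descFactorial_eq_factorial_mul_choose, Nat.cast_mul]
    have e2 : (descPochhammer (ZMod p) (l' + 1)).eval (i : ZMod p) =
        ((l' + 1).factorial : ZMod p) * (i.choose (l' + 1) : ZMod p) := by
      rw [descPochhammer_eval_eq_descFactorial, Nat.descFactorial_eq_factorial_mul_choose, Nat.cast_mul]
    have e3 : (descPochhammer (ZMod p) (m' + 1)).eval (i : ZMod p) = (i : ZMod p) *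
        ((descPochhammer (ZMod p) m').comp (Polynomial.X - 1)).eval (i : ZMod p) := by
      rw [descPochhammer_succ_left, Polynomial.eval_mul, Polynomial.eval_X]
    rw [hq, Polynomial.eval_mul, e2]
    by_cases hi : (i : ZMod p) = 0
    · have e4 : (descPochhammer (ZMod p) (l' + 1)).eval (i : ZMod p) = 0 := by
        rw [hi, descPochhammer_succ_left, Polynomial.eval_mul, Polynomial.eval_X, zero_mul]
      rw [e2] at e4
      rw [e4, mul_zero, hi, inv_zero, zero_mul, zero_mul]
    · have e5 : ((descPochhammer (ZMod p) m').comp (Polynomial.X - 1)).eval (i : ZMod p) =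
          (i : ZMod p)⁻¹ * (((m' + 1).factorial : ZMod p) * (i.choose (m' + 1) : ZMod p)) := by
        rw [← e1, e3, ← mul_assoc, inv_mul_cancel₀ hi, one_mul]
      rw [e5]
      ring
  have hsum := LDR_poly q hdeg
  simp_rw [← hterm] at hsum
  rw [← Finset.sum_mul] at hsum
  have hf : ∀ k : ℕ, k < p → ((k.factorial : ℕ) : ZMod p) ≠ 0 := by
    intro k hk h0
    rw [ZMod.natCast_eq_zero_iff] at h0
    have h1 := ((Fact.out : p.Prime).dvd_factorial).1 h0
    omega
  rcases mul_eq_zero.1 hsum with h1 | h1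
  · exact h1
  · exact absurd h1 (mul_ne_zero (hf _ (by omega)) (hf _ (by omega)))

theorem LDR_inv (h2 : 2 < p) : ∑ i ∈ range p, (i : ZMod p)⁻¹ = 0 := by
  have h3 : ∀ i : ℕ, (i : ZMod p)⁻¹ = (Polynomial.X ^ (p - 2) : Polynomial (ZMod p)).eval (i : ZMod p) := by
    intro i
    rw [Polynomial.eval_pow, Polynomial.eval_X]
    by_cases hi : (i : ZMod p) = 0
    · rw [hi, inv_zero, zero_pow (by omega)]
    · have h4 := ZMod.pow_card_sub_one_eq_one hi
      have h5 : (i : ZMod p) ^ (p - 1) = (i : ZMod p) ^ (p - 2) * i := by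
        rw [← pow_succ]
        congr 1
        omega
      rw [h5] at h4
      exact (eq_inv_of_mul_eq_one_left h4).symm
  simp_rw [h3]
  refine LDR_poly _ ?_
  rw [Polynomial.natDegree_X_pow]
  omega

end prime

section

variable {K : Type u} [Field K]

/-- `s - 1` -/
def LDR_N (s : K →+* K) (y : K) : K := s y - y

theorem LDR_exp (s : K →+* K) (i : ℕ) : ∀ (M : ℕ) (a : K), i < M →
    s^[i] a = ∑ m ∈ range M, (i.choose m : K) * (LDR_N s)^[m] a := by
  induction i with
  | zero =>
    intro M a hM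
    rw [Finset.sum_eq_single 0]
    · rw [Nat.choose_zero_right, Nat.cast_one, one_mul]
      rfl
    · intro b _ hb
      rw [Nat.choose_eq_zero_of_lt (Nat.pos_of_ne_zero hb), Nat.cast_zero, zero_mul]
    · intro h
      exact absurd (Finset.mem_range.2 hM) h
  | succ i ih =>
    intro M a hM
    obtain ⟨M', rfl⟩ : ∃ M', M = M' + 1 := ⟨M - 1, by omega⟩
    have h1 : s^[i + 1] a = s^[i] a + s^[i] (LDR_N s a) := by
      rw [Function.iterate_succ_apply, ← RingHom.coe_pow, ← map_add]
      congr 1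
      unfold LDR_N
      ring
    rw [h1, ih (M' + 1) a (by omega), ih M' (LDR_N s a) (by omega), Finset.sum_range_succ',
      Finset.sum_range_succ', Nat.choose_zero_right, Nat.choose_zero_right]
    have h2 : ∀ m ∈ range M', (((i + 1).choose (m + 1) : ℕ) : K) * (LDR_N s)^[m + 1] a =
        ((i.choose (m + 1) : ℕ) : K) * (LDR_N s)^[m + 1] a + ((i.choose m : ℕ) : K) * (LDR_N s)^[m] (LDR_N s a) := by
      intro m _
      rw [Nat.choose_succ_succ, Nat.cast_add, Function.iterate_succ_apply]
      ring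
    rw [Finset.sum_congr rfl h2, Finset.sum_add_distrib]
    ring

theorem LDR_N_it {p : ℕ} (s : K →+* K) (v : K → ℤ) (hv : DVal v) (j : ℤ)
    (hs : ∀ (r : ℤ) (y : K), Ge v r y → Ge v (r + j) (s y - y)) (m : ℕ) :
    ∀ (r : ℤ) (y : K), Ge v r y → Ge v (r + m * j) ((LDR_N s)^[m] y) := by
  induction m with
  | zero =>
    intro r y hy
    rw [Nat.cast_zero, zero_mul, add_zero]
    exact hy
  | succ m ih =>
    intro r y hy
    rw [Function.iterate_succ_apply]
    have h1 := ih (r + j) (LDR_N s y) (hs r y hy)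
    have h2 : r + j + m * j = r + ((m + 1 : ℕ) : ℤ) * j := by
      push_cast
      ring
    rw [← h2]
    exact h1

theorem LDR_prime {p : ℕ} [Fact p.Prime] [CharP K p] (v : K → ℤ) (hv : DVal v) (x : ZMod p) :
    Ge v 0 (ZMod.castHom (dvd_refl p) K x) := by
  by_cases hx : x = 0
  · rw [hx, map_zero]
    exact CON_ge_zero 0
  · right
    have h1 := ZMod.pow_card_sub_one_eq_one hx
    have h2 : (ZMod.castHom (dvd_refl p) K x) ≠ 0 := by
      intro h
      exact hx ((ZMod.castHom (dvd_refl p) K).injective (by rw [h, map_zero]))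
    have h3 : (ZMod.castHom (dvd_refl p) K x) ^ (p - 1) = 1 := by
      rw [← map_pow, h1, map_one]
    have h4 := ASA_pow hv h2 (p - 1)
    rw [h3, ASA_v1 hv] at h4
    have h5 : ((p - 1 : ℕ) : ℤ) ≠ 0 := by
      have := (Fact.out : p.Prime).two_le
      omega
    rcases mul_eq_zero.1 h4.symm with h6 | h6
    · exact absurd h6 h5
    · exact h6.ge

/-- the coefficients -/
theorem LDR_cast {p : ℕ} [Fact p.Prime] [CharP K p] (f : ℕ → ZMod p) (g : ℕ → K)
    (h : ∀ i, ZMod.castHom (dvd_refl p) K (f i) = g i) (S : Finset ℕ) :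
    ZMod.castHom (dvd_refl p) K (∑ i ∈ S, f i) = ∑ i ∈ S, g i := by
  rw [map_sum]
  exact Finset.sum_congr rfl fun i _ => h i

end

theorem LDR : LDR_stmt.{u} := by
  intro K _ p _ _ hp s v hv hsp j hj hs
  have hpp : p.Prime := Fact.out
  set φ : ZMod p →+* K := ZMod.castHom (dvd_refl p) K with hφ
  let L : K → K := fun a => -∑ i ∈ range p, (i : K)⁻¹ * s^[i] a
  have hφi : ∀ i : ℕ, φ (i : ZMod p) = (i : K) := fun i => map_natCast φ i
  -- sum of the inverses
  have hinv : ∑ i ∈ range p, ((i : K)⁻¹) = 0 := by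
    have h1 := congrArg φ (LDR_inv (p := p) hp)
    rw [map_zero, map_sum] at h1
    rw [← h1]
    exact Finset.sum_congr rfl fun i _ => by rw [map_inv₀, hφi]
  -- the coefficients of N ^ m
  let lam : ℕ → K := fun m => -∑ i ∈ range p, (i : K)⁻¹ * (i.choose m : K)
  have hlam_ge : ∀ m, Ge v 0 (lam m) := by
    intro m
    have h1 : lam m = φ (-∑ i ∈ range p, (i : ZMod p)⁻¹ * (i.choose m : ZMod p)) := by
      rw [map_neg, map_sum]
      change -_ = -_
      congr 1
      refine Finset.sum_congr rfl fun i _ => ?_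
      rw [map_mul, map_inv₀, hφi, map_natCast]
    rw [h1]
    exact LDR_prime v hv _
  have hlam0 : lam 0 = 0 := by
    change -_ = _
    rw [neg_eq_zero, ← hinv]
    exact Finset.sum_congr rfl fun i _ => by rw [Nat.choose_zero_right, Nat.cast_one, mul_one]
  have hlam1 : lam 1 = 1 := by
    change -∑ i ∈ range p, (i : K)⁻¹ * (i.choose 1 : K) = 1
    obtain ⟨q, hq⟩ : ∃ q, p = q + 1 := ⟨p - 1, by omega⟩
    have h1 : ∑ i ∈ range p, (i : K)⁻¹ * (i.choose 1 : K) = (q : K) := by
      rw [hq, Finset.sum_range_succ']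
      have h2 : ∀ i ∈ range q, (((i + 1 : ℕ) : K))⁻¹ * (((i + 1).choose 1 : ℕ) : K) = 1 := by
        intro i hi
        rw [Nat.choose_one_right]
        refine inv_mul_cancel₀ ?_
        intro h3
        rw [CharP.cast_eq_zero_iff K p] at h3
        have h4 := Nat.le_of_dvd (Nat.succ_pos i) h3
        rw [Finset.mem_range] at hi
        omega
      rw [Finset.sum_congr rfl h2, Finset.sum_const, Finset.card_range, Nat.cast_zero, inv_zero, zero_mul,
        add_zero, nsmul_eq_mul, mul_one]
    rw [h1]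
    have h3 : ((q + 1 : ℕ) : K) = 0 := by
      rw [← hq]
      exact CharP.cast_eq_zero K p
    rw [Nat.cast_add, Nat.cast_one] at h3
    exact (eq_neg_of_add_eq_zero_right h3).symm
  have hexp : ∀ i ∈ range p, ∀ a, s^[i] a = ∑ m ∈ range p, (i.choose m : K) * (LDR_N s)^[m] a :=
    fun i hi a => LDR_exp s i p a (Finset.mem_range.1 hi)
  have hLexp : ∀ a, L a = ∑ m ∈ range p, lam m * (LDR_N s)^[m] a := by
    intro a
    change -∑ i ∈ range p, (i : K)⁻¹ * s^[i] a = _
    have h1 : ∑ i ∈ range p, (i : K)⁻¹ * s^[i] a =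
        ∑ i ∈ range p, ∑ m ∈ range p, (i : K)⁻¹ * (i.choose m : K) * (LDR_N s)^[m] a := by
      refine Finset.sum_congr rfl fun i hi => ?_
      rw [hexp i hi a, Finset.mul_sum]
      exact Finset.sum_congr rfl fun m _ => by ring
    rw [h1, Finset.sum_comm, ← Finset.sum_neg_distrib]
    refine Finset.sum_congr rfl fun m _ => ?_
    change _ = (-∑ i ∈ range p, (i : K)⁻¹ * (i.choose m : K)) * _
    rw [← Finset.sum_mul, neg_mul]
  have hNit := LDR_N_it (p := p) s v hv j hs
  refine ⟨L, ?_, ?_, ?_, ?_, ?_⟩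
  · intro a b
    change -∑ i ∈ range p, (i : K)⁻¹ * s^[i] (a + b) = -∑ i ∈ range p, (i : K)⁻¹ * s^[i] a +
      -∑ i ∈ range p, (i : K)⁻¹ * s^[i] b
    rw [← neg_add, ← Finset.sum_add_distrib]
    congr 1
    refine Finset.sum_congr rfl fun i _ => ?_
    rw [← RingHom.coe_pow, map_add, mul_add]
  · intro c a hc
    change -∑ i ∈ range p, (i : K)⁻¹ * s^[i] (c * a) = c * -∑ i ∈ range p, (i : K)⁻¹ * s^[i] a
    rw [mul_neg, Finset.mul_sum]
    congr 1
    refine Finset.sum_congr rfl fun i _ => ?_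
    have h1 : s^[i] c = c := Function.iterate_fixed hc i
    rw [← RingHom.coe_pow, map_mul, RingHom.coe_pow, h1]
    ring
  · intro c hc
    change -∑ i ∈ range p, (i : K)⁻¹ * s^[i] c = 0
    have h1 : ∑ i ∈ range p, (i : K)⁻¹ * s^[i] c = (∑ i ∈ range p, (i : K)⁻¹) * c := by
      rw [Finset.sum_mul]
      refine Finset.sum_congr rfl fun i _ => ?_
      rw [Function.iterate_fixed hc i]
    rw [h1, hinv, zero_mul, neg_zero]
  · intro r r' a b ha hb
    have hsub : ∀ i ∈ range p, ∀ a, s^[i] a - a = ∑ m ∈ Finset.Ico 1 p, (i.choose m : K) * (LDR_N s)^[m] a := by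
      intro i hi a
      rw [hexp i hi a, Finset.range_eq_Ico, Finset.sum_eq_sum_Ico_succ_bot hpp.pos, Nat.choose_zero_right,
        Nat.cast_one, one_mul]
      change a + _ - a = _
      rw [add_sub_cancel_left]
    have h1 : L (a * b) - a * L b - b * L a =
        -∑ m ∈ Finset.Ico 1 p, ∑ l ∈ Finset.Ico 1 p,
          (∑ i ∈ range p, (i : K)⁻¹ * ((i.choose m : K) * (i.choose l : K))) *
            ((LDR_N s)^[m] a * (LDR_N s)^[l] b) := by
      have h2 : ∀ i ∈ range p, (i : K)⁻¹ * ((s^[i] a - a) * (s^[i] b - b)) =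
          ∑ m ∈ Finset.Ico 1 p, ∑ l ∈ Finset.Ico 1 p,
            (i : K)⁻¹ * ((i.choose m : K) * (i.choose l : K)) * ((LDR_N s)^[m] a * (LDR_N s)^[l] b) := by
        intro i hi
        rw [hsub i hi a, hsub i hi b, Finset.sum_mul_sum, Finset.mul_sum]
        refine Finset.sum_congr rfl fun m _ => ?_
        rw [Finset.mul_sum]
        exact Finset.sum_congr rfl fun l _ => by ring
      have h3 : L (a * b) - a * L b - b * L a = -∑ i ∈ range p, (i : K)⁻¹ * ((s^[i] a - a) * (s^[i] b - b)) := by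
        have h4 : ∑ i ∈ range p, (i : K)⁻¹ * ((s^[i] a - a) * (s^[i] b - b)) =
            ∑ i ∈ range p, (i : K)⁻¹ * s^[i] (a * b) - a * ∑ i ∈ range p, (i : K)⁻¹ * s^[i] b -
              b * ∑ i ∈ range p, (i : K)⁻¹ * s^[i] a + (∑ i ∈ range p, (i : K)⁻¹) * (a * b) := by
          rw [Finset.mul_sum, Finset.mul_sum, Finset.sum_mul, ← Finset.sum_sub_distrib, ← Finset.sum_sub_distrib,
            ← Finset.sum_add_distrib]
          refine Finset.sum_congr rfl fun i _ => ?_
          rw [← RingHom.coe_pow, map_mul]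
          ring
        rw [h4, hinv]
        change -_ - a * -_ - b * -_ = _
        ring
      rw [h3, Finset.sum_congr rfl h2, Finset.sum_comm]
      congr 1
      refine Finset.sum_congr rfl fun m _ => ?_
      rw [Finset.sum_comm]
      refine Finset.sum_congr rfl fun l _ => ?_
      rw [Finset.sum_mul]
    rw [h1]
    refine CON_ge_neg hv (ASA_Gsum hv _ _ fun m hm => ASA_Gsum hv _ _ fun l hl => ?_)
    rw [Finset.mem_Ico] at hm hl
    by_cases hml : m + l < p
    · have h5 : ∑ i ∈ range p, (i : K)⁻¹ * ((i.choose m : K) * (i.choose l : K)) = 0 := by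
        have h6 := congrArg φ (LDR_c (p := p) m l hm.1 hl.1 hml)
        rw [map_zero, map_sum] at h6
        rw [← h6]
        exact Finset.sum_congr rfl fun i _ => by rw [map_mul, map_mul, map_inv₀, hφi, map_natCast, map_natCast]
      rw [h5, zero_mul]
      exact CON_ge_zero _
    · have h5 : Ge v 0 (∑ i ∈ range p, (i : K)⁻¹ * ((i.choose m : K) * (i.choose l : K))) := by
        have h6 : ∑ i ∈ range p, (i : K)⁻¹ * ((i.choose m : K) * (i.choose l : K)) =
            φ (∑ i ∈ range p, (i : ZMod p)⁻¹ * ((i.choose m : ZMod p) * (i.choose l : ZMod p))) := by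
          rw [map_sum]
          exact Finset.sum_congr rfl fun i _ => by rw [map_mul, map_mul, map_inv₀, hφi, map_natCast, map_natCast]
        rw [h6]
        exact LDR_prime v hv _
      have h7 := CON_ge_mul hv h5 (CON_ge_mul hv (hNit m r a ha) (hNit l r' b hb))
      refine CON_ge_mono ?_ h7
      have h8 : (p : ℤ) * j ≤ ((m : ℤ) + l) * j := by
        refine mul_le_mul_of_nonneg_right ?_ (by omega)
        omega
      linarith
  · intro r a ha
    have h1 : L a - (s a - a) = ∑ m ∈ Finset.Ico 2 p, lam m * (LDR_N s)^[m] a := by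
      rw [hLexp a, Finset.range_eq_Ico, Finset.sum_eq_sum_Ico_succ_bot hpp.pos,
        Finset.sum_eq_sum_Ico_succ_bot hpp.one_lt, hlam0, hlam1, zero_mul, one_mul]
      change 0 + ((s a - a) + _) - (s a - a) = _
      ring
    rw [h1]
    refine ASA_Gsum hv _ _ fun m hm => ?_
    rw [Finset.mem_Ico] at hm
    have h2 := CON_ge_mul hv (hlam_ge m) (hNit m r a ha)
    refine CON_ge_mono ?_ h2
    have h8 : (2 : ℤ) * j ≤ (m : ℤ) * j := by
      refine mul_le_mul_of_nonneg_right ?_ (by omega)
      omega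
    linarith

end Pool.Agent.QS
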