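import Pool.Agent.helper51.QS.SpecA
import Pool.Agent.helper51.QS.Lib

/-!
# Row qs:LMO: the truncated logarithm is close to a derivation
-/

set_option autoImplicit false

namespace Pool.Agent.QS

open Pool.Agent.PC

universe u

section

variable {K : Type u} [Field K] {v : K → ℤ}

/-- cancel a factor of known value -/
theorem LMO_cancel (hv : DVal v) {x z : K} (hx : x ≠ 0) {r : ℤ} (h : Ge v (r + v x) (x * z)) : Ge v r z := by
  by_cases hz : z = 0
  · exact Or.inl hz
  · right
    have h1 := h.resolve_left (mul_ne_zero hx hz)
    rw [hv.mul x z hx hz] at h1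
    omega

theorem LMO_wpos {k : Type u} [Field k] {A : Type u} [CommRing A] [Algebra k A] {n : ℕ} {m : Ideal A}
    {y : Fin n → A} {φ : A →ₐ[k] MvPowerSeries (Fin n) k} [Algebra A K] {w : Fin n → ℕ}
    (hT : Taylor m y φ) (hW : IsW φ w v) (i : Fin n) :
    algebraMap A K (y i) ≠ 0 ∧ v (algebraMap A K (y i)) = w i := by
  have h1 := Lib_Wy hT hW i
  have h2 : ¬ Ge v ((w i + 1 : ℕ) : ℤ) (algebraMap A K (y i)) := by
    rw [hW.2, hT.1 i]
    intro h
    have h3 := h (Finsupp.single i 1) (by
      rw [Finsupp.weight_single]
      simp)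
    rw [MvPowerSeries.coeff_X, if_pos rfl] at h3
    exact one_ne_zero h3
  have h3 : algebraMap A K (y i) ≠ 0 := fun h => h2 (Or.inl h)
  refine ⟨h3, ?_⟩
  have h4 := h1.resolve_left h3
  have h5 : ¬ ((w i + 1 : ℕ) : ℤ) ≤ v (algebraMap A K (y i)) := fun h => h2 (Or.inr h)
  push_cast at h5
  omega

end

theorem LMO : LMO_stmt.{u} := by
  intro k A K _ _ _ _ _ _ _ _ _ n p m _ y φ D hT hD w v hW hw hyD j hj L hadd hlin hge hder
  have hv := hW.1
  -- the error
  obtain ⟨E, hE⟩ : ∃ E : K → K, ∀ b, E b = L b - ∑ i, L (algebraMap A K (y i)) * D i b := ⟨_, fun _ => rfl⟩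
  have hEadd : ∀ a b, E (a + b) = E a + E b := by
    intro a b
    rw [hE, hE, hE, hadd]
    have h1 : ∑ i, L (algebraMap A K (y i)) * D i (a + b) =
        ∑ i, L (algebraMap A K (y i)) * D i a + ∑ i, L (algebraMap A K (y i)) * D i b := by
      rw [← Finset.sum_add_distrib]
      refine Finset.sum_congr rfl fun i _ => ?_
      rw [map_add, mul_add]
    rw [h1]
    ring
  have hE0 : E 0 = 0 := by
    have h := hEadd 0 0
    rw [add_zero] at h
    exact left_eq_add.1 h
  have hElin : ∀ (c : k) (a : K), E (algebraMap k K c * a) = algebraMap k K c * E a := by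
    intro c a
    rw [hE, hE, hlin, mul_sub, Finset.mul_sum]
    congr 1
    refine Finset.sum_congr rfl fun i _ => ?_
    rw [Derivation.leibniz, Derivation.map_algebraMap, smul_zero, add_zero, smul_eq_mul]
    ring
  have hEder : ∀ (r r' : ℤ) (a b : K), Ge v r a → Ge v r' b →
      Ge v (r + r' + p * j) (E (a * b) - a * E b - b * E a) := by
    intro r r' a b ha hb
    have h := hder r r' a b ha hb
    have h2 : E (a * b) - a * E b - b * E a = L (a * b) - a * L b - b * L a := by
      rw [hE, hE, hE, mul_sub, mul_sub, Finset.mul_sum, Finset.mul_sum]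
      have h1 : ∑ i, L (algebraMap A K (y i)) * D i (a * b) =
          ∑ i, a * (L (algebraMap A K (y i)) * D i b) + ∑ i, b * (L (algebraMap A K (y i)) * D i a) := by
        rw [← Finset.sum_add_distrib]
        refine Finset.sum_congr rfl fun i _ => ?_
        rw [Derivation.leibniz, smul_eq_mul, smul_eq_mul]
        ring
      rw [h1]
      ring
    rw [h2]
    exact h
  have hEy : ∀ i, E (algebraMap A K (y i)) = 0 := by
    intro i
    rw [hE]
    have h1 : ∑ l, L (algebraMap A K (y l)) * D l (algebraMap A K (y i)) = L (algebraMap A K (y i)) := by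
      rw [Finset.sum_eq_single i]
      · rw [hD.1, if_pos rfl, mul_one]
      · intro l _ hl
        rw [hD.1, if_neg hl, mul_zero]
      · intro h
        exact absurd (Finset.mem_univ i) h
    rw [h1, sub_self]
  have hy := LMO_wpos (K := K) hT hW
  -- elements of m ^ N
  have hEN : ∀ (r : ℤ) (b : K), Ge v r b → Ge v r (E b) := by
    intro r b hb
    rw [hE]
    refine CON_ge_sub hv (hge r b hb) (ASA_Gsum hv _ _ fun i _ => ?_)
    refine LMO_cancel hv (hy i).1 ?_
    have h1 : algebraMap A K (y i) * (L (algebraMap A K (y i)) * D i b) =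
        (algebraMap A K (y i) * D i b) * L (algebraMap A K (y i)) := by ring
    rw [h1]
    exact CON_ge_mul hv (hyD i b r hb) (hge _ _ (Or.inr le_rfl))
  have hE1 : Ge v (p * j) (E 1) := by
    have h := hEder 0 0 1 1 (Or.inr (by rw [ASA_v1 hv])) (Or.inr (by rw [ASA_v1 hv]))
    rw [one_mul, one_mul, sub_self, zero_sub, add_zero, zero_add] at h
    have h2 := CON_ge_neg hv h
    rwa [neg_neg] at h2
  -- monomials
  have hmon : ∀ α : Fin n →₀ ℕ, Ge v ((Finsupp.weight w α : ℕ) + p * j)
      (E (MvPolynomial.aeval (fun i => algebraMap A K (y i)) (MvPolynomial.monomial α (1 : k)))) := by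
    intro α
    induction α using Finsupp.induction_linear with
    | zero =>
      rw [map_zero, MvPolynomial.monomial_zero', MvPolynomial.C_1, map_one, Nat.cast_zero, zero_add]
      exact hE1
    | add f g hf hg =>
      have hMge : ∀ α : Fin n →₀ ℕ, Ge v (Finsupp.weight w α : ℕ)
          (MvPolynomial.aeval (fun i => algebraMap A K (y i)) (MvPolynomial.monomial α (1 : k))) := by
        intro α
        have h1 : MvPolynomial.aeval (fun i => algebraMap A K (y i)) (MvPolynomial.monomial α (1 : k)) =
            algebraMap A K (MvPolynomial.aeval y (MvPolynomial.monomial α (1 : k))) := by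
          rw [MvPolynomial.aeval_monomial, MvPolynomial.aeval_monomial, map_one, map_one, one_mul, one_mul,
            Finsupp.prod, Finsupp.prod, map_prod]
          refine Finset.prod_congr rfl fun i _ => ?_
          rw [map_pow]
        rw [h1, hW.2, Lib_aeval hT]
        intro β hβ
        rw [MvPolynomial.coeff_coe, MvPolynomial.coeff_monomial, if_neg]
        rintro rfl
        exact lt_irrefl _ hβ
      have h1 : MvPolynomial.aeval (fun i => algebraMap A K (y i)) (MvPolynomial.monomial (f + g) (1 : k)) =
          MvPolynomial.aeval (fun i => algebraMap A K (y i)) (MvPolynomial.monomial f (1 : k)) *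
          MvPolynomial.aeval (fun i => algebraMap A K (y i)) (MvPolynomial.monomial g (1 : k)) := by
        rw [← map_mul, MvPolynomial.monomial_mul, one_mul]
      rw [h1]
      have h2 := hEder _ _ _ _ (hMge f) (hMge g)
      have h3 := CON_ge_mul hv (hMge f) hg
      have h4 := CON_ge_mul hv (hMge g) hf
      have h5 : Ge v ((Finsupp.weight w (f + g) : ℕ) + p * j)
          (E (MvPolynomial.aeval (fun i => algebraMap A K (y i)) (MvPolynomial.monomial f (1 : k)) *
          MvPolynomial.aeval (fun i => algebraMap A K (y i)) (MvPolynomial.monomial g (1 : k))) -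
          MvPolynomial.aeval (fun i => algebraMap A K (y i)) (MvPolynomial.monomial f (1 : k)) *
          E (MvPolynomial.aeval (fun i => algebraMap A K (y i)) (MvPolynomial.monomial g (1 : k))) -
          MvPolynomial.aeval (fun i => algebraMap A K (y i)) (MvPolynomial.monomial g (1 : k)) *
          E (MvPolynomial.aeval (fun i => algebraMap A K (y i)) (MvPolynomial.monomial f (1 : k)))) := by
        refine CON_ge_mono ?_ h2
        rw [map_add]
        push_cast
        omega
      have h6 : Ge v ((Finsupp.weight w (f + g) : ℕ) + p * j)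
          (MvPolynomial.aeval (fun i => algebraMap A K (y i)) (MvPolynomial.monomial f (1 : k)) *
          E (MvPolynomial.aeval (fun i => algebraMap A K (y i)) (MvPolynomial.monomial g (1 : k)))) := by
        refine CON_ge_mono ?_ h3
        rw [map_add]
        push_cast
        omega
      have h7 : Ge v ((Finsupp.weight w (f + g) : ℕ) + p * j)
          (MvPolynomial.aeval (fun i => algebraMap A K (y i)) (MvPolynomial.monomial g (1 : k)) *
          E (MvPolynomial.aeval (fun i => algebraMap A K (y i)) (MvPolynomial.monomial f (1 : k)))) := by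
        refine CON_ge_mono ?_ h4
        rw [map_add]
        push_cast
        omega
      have h8 := CON_ge_add hv (CON_ge_add hv h5 h6) h7
      have h9 : ∀ a b c : K, a - b - c + b + c = a := fun a b c => by ring
      rwa [h9] at h8
    | single i e =>
      have hs : ∀ e : ℕ, MvPolynomial.aeval (fun i => algebraMap A K (y i))
          (MvPolynomial.monomial (Finsupp.single i e) (1 : k)) = algebraMap A K (y i) ^ e := by
        intro e
        rw [MvPolynomial.aeval_monomial, map_one, one_mul]
        exact Finsupp.prod_single_index (pow_zero _)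
      induction e with
      | zero =>
        rw [Finsupp.single_zero, map_zero, MvPolynomial.monomial_zero', MvPolynomial.C_1, map_one,
          Nat.cast_zero, zero_add]
        exact hE1
      | succ e ih =>
        rw [hs, Finsupp.weight_single, smul_eq_mul] at ih ⊢
        have hpow : Ge v ((e * w i : ℕ) : ℤ) (algebraMap A K (y i) ^ e) := by
          right
          rw [ASA_pow hv (hy i).1, (hy i).2]
          push_cast
          exact le_rfl
        have h2 := hEder _ _ _ _ hpow (Or.inr (hy i).2.ge)
        rw [hEy, mul_zero, sub_zero, ← pow_succ] at h2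
        have h3 := CON_ge_mul hv (Or.inr (hy i).2.ge) ih
        have h4 : Ge v (((e + 1) * w i : ℕ) + p * j)
            (E (algebraMap A K (y i) ^ (e + 1)) - algebraMap A K (y i) * E (algebraMap A K (y i) ^ e)) := by
          refine CON_ge_mono ?_ h2
          push_cast
          linarith
        have h5 : Ge v (((e + 1) * w i : ℕ) + p * j)
            (algebraMap A K (y i) * E (algebraMap A K (y i) ^ e)) := by
          refine CON_ge_mono ?_ h3
          push_cast
          linarith
        have h6 := CON_ge_add hv h4 h5
        rwa [sub_add_cancel] at h6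
  -- sums
  have hEsum : ∀ (S : Finset (Fin n →₀ ℕ)) (g : (Fin n →₀ ℕ) → K), E (∑ α ∈ S, g α) = ∑ α ∈ S, E (g α) := by
    classical
    intro S g
    induction S using Finset.induction_on with
    | empty => rw [Finset.sum_empty, Finset.sum_empty, hE0]
    | insert a S ha ih => rw [Finset.sum_insert ha, Finset.sum_insert ha, hEadd, ih]
  -- elements of A
  have hA : ∀ (r : ℤ) (b : A), Ge v r (algebraMap A K b) → Ge v (r + p * j) (E (algebraMap A K b)) := by
    intro r b hb
    obtain ⟨N, hN⟩ : ∃ N : ℕ, r + p * j ≤ N := ⟨(r + p * j).toNat, Int.self_le_toNat _⟩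
    have h1 := Lib_trunc hT b N
    have h2 := Lib_WN hT hW 1 hw N _ h1
    rw [one_mul] at h2
    have h3 := CON_ge_mono hN (hEN _ _ h2)
    have h4 : algebraMap A K b = algebraMap A K (b - MvPolynomial.aeval y (MvPowerSeries.truncTotal N (φ b))) +
        algebraMap A K (MvPolynomial.aeval y (MvPowerSeries.truncTotal N (φ b))) := by
      rw [← map_add, sub_add_cancel]
    rw [h4, hEadd]
    refine CON_ge_add hv h3 ?_
    have h5 : algebraMap A K (MvPolynomial.aeval y (MvPowerSeries.truncTotal N (φ b))) =
        ∑ α ∈ (MvPowerSeries.truncTotal N (φ b)).support,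
          algebraMap k K (MvPolynomial.coeff α (MvPowerSeries.truncTotal N (φ b))) *
          MvPolynomial.aeval (fun i => algebraMap A K (y i)) (MvPolynomial.monomial α (1 : k)) := by
      have h6 : ∀ f : MvPolynomial (Fin n) k, algebraMap A K (MvPolynomial.aeval y f) =
          MvPolynomial.aeval (fun i => algebraMap A K (y i)) f := by
        intro f
        have h7 : (IsScalarTower.toAlgHom k A K).comp (MvPolynomial.aeval y) =
            MvPolynomial.aeval (fun i => algebraMap A K (y i)) := by
          refine MvPolynomial.algHom_ext fun i => ?_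
          rw [AlgHom.comp_apply, MvPolynomial.aeval_X, MvPolynomial.aeval_X]
          rfl
        have h8 := AlgHom.congr_fun h7 f
        rw [AlgHom.comp_apply] at h8
        exact h8
      rw [h6]
      conv_lhs => rw [MvPolynomial.as_sum (MvPowerSeries.truncTotal N (φ b)), map_sum]
      refine Finset.sum_congr rfl fun α _ => ?_
      rw [MvPolynomial.aeval_monomial, MvPolynomial.aeval_monomial, map_one, one_mul]
    rw [h5, hEsum]
    have h6 : ∀ α ∈ (MvPowerSeries.truncTotal N (φ b)).support, Ge v (r + p * j)
        (E (algebraMap k K (MvPolynomial.coeff α (MvPowerSeries.truncTotal N (φ b))) *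
          MvPolynomial.aeval (fun i => algebraMap A K (y i)) (MvPolynomial.monomial α (1 : k)))) := by
      intro α hα
      rw [hElin]
      have h7 : Ge v 0 (algebraMap k K (MvPolynomial.coeff α (MvPowerSeries.truncTotal N (φ b)))) := by
        rw [IsScalarTower.algebraMap_apply k A K]
        exact Lib_W0 hW _
      have h8 : r ≤ (Finsupp.weight w α : ℕ) := by
        refine Lib_W hW r b hb α ?_
        rw [MvPolynomial.mem_support_iff] at hα
        by_cases hdeg : α.degree < N
        · rwa [MvPowerSeries.coeff_truncTotal _ hdeg] at hα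
        · exact absurd (MvPowerSeries.coeff_truncTotal_eq_zero _ (not_lt.1 hdeg)) hα
      refine CON_ge_mono ?_ (CON_ge_mul hv h7 (hmon α))
      omega
    clear h5
    generalize (MvPowerSeries.truncTotal N (φ b)).support = S at h6 ⊢
    classical
    induction S using Finset.induction_on with
    | empty => exact Or.inl Finset.sum_empty
    | insert a S ha ih =>
      rw [Finset.sum_insert ha]
      exact CON_ge_add hv (h6 a (Finset.mem_insert_self a S))
        (ih fun i hi => h6 i (Finset.mem_insert_of_mem hi))
  -- all elements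
  intro r b hb
  rw [← hE]
  by_cases hb0 : b = 0
  · rw [hb0, hE0]
    exact Or.inl rfl
  obtain ⟨a, c, hc, rfl⟩ := IsFractionRing.div_surjective (A := A) b
  have hc0 : algebraMap A K c ≠ 0 := by
    intro h
    rw [h, div_zero] at hb0
    exact hb0 rfl
  have h1 := hA (v (algebraMap A K c)) c (Or.inr le_rfl)
  have h2 := hEder r (v (algebraMap A K c)) _ _ hb (Or.inr le_rfl)
  rw [div_mul_cancel₀ _ hc0] at h2
  have h3 : Ge v (r + v (algebraMap A K c)) (algebraMap A K a) := by
    have h := CON_ge_mul hv hb (Or.inr (le_refl (v (algebraMap A K c))))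
    rwa [div_mul_cancel₀ _ hc0] at h
  have h4 := hA _ a h3
  have h5 := CON_ge_mul hv hb h1
  refine LMO_cancel hv hc0 ?_
  have h6 : algebraMap A K c * E (algebraMap A K a / algebraMap A K c) =
      E (algebraMap A K a) - algebraMap A K a / algebraMap A K c * E (algebraMap A K c) -
      (E (algebraMap A K a) - algebraMap A K a / algebraMap A K c * E (algebraMap A K c) -
      algebraMap A K c * E (algebraMap A K a / algebraMap A K c)) := by ring
  rw [h6]
  refine CON_ge_sub hv (CON_ge_sub hv (CON_ge_mono ?_ h4) (CON_ge_mono ?_ h5)) (CON_ge_mono ?_ h2)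
  · linarith
  · linarith
  · linarith

end Pool.Agent.QS
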