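import Pool.Agent.helper51.QS.SpecC
import Pool.Agent.helper51.PC.Bridge
import Pool.Agent.helper51.PC.Pair

/-!
# Theorem B (MP_74cfa5_ag) for any ring `R` which is identified with the invariants
-/

set_option autoImplicit false

namespace Pool.Agent.QS

open Pool.Agent.PC

universe u

theorem MAIN2_aux (hCORE : CORE_stmt.{u}) (hSML : SML_stmt.{u}) (hINV : INV_stmt.{u}) (hLCF : LCF_stmt.{u})
    (hGAL : GAL_stmt.{u}) (hKDI : KDI_stmt.{u}) (hTBF : TBF_stmt.{u})
    (k R A F K G : Type u) [Field k] [IsAlgClosed k] [CommRing R] [IsDomain R] [CommRing A] [IsDomain A]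
    [Algebra k R] [Algebra k A] [Algebra R A] [IsScalarTower k R A] [FaithfulSMul R A] [Field F] [Field K]
    [Algebra k F] [Algebra k K] [Algebra R F] [IsFractionRing R F] [Algebra A K]
    [IsFractionRing A K] [Algebra F K] [Algebra R K] [IsScalarTower k R F] [IsScalarTower k A K]
    [IsScalarTower k F K] [IsScalarTower R A K] [IsScalarTower R F K] [Group G] [Finite G]
    [MulSemiringAction G A] [SMulCommClass G k A] [SMulCommClass G R A] [Algebra.IsInvariant R A G]
    [Algebra.Smooth k A] (n p : ℕ) [Fact p.Prime] [CharP k p] (h3 : 3 * n * (n - 1) < 2 * p)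
    (hdim : ringKrullDim A = n)
    (hcod : ∀ g : G, g ≠ 1 → ∀ Q : Ideal A, Q.IsPrime → Q.height = 1 → ∃ a : A, g • a - a ∉ Q)
    (S : Ideal R) (B : Ideal R → ℚ) (hplt : PltPair.IsPlt k F R n S B) : IsIntegrallyClosed (R ⧸ S) := by
  obtain ⟨hft, hint, -⟩ := hINV k R A G
  rcases Nat.lt_or_ge n 2 with hn | hn
  · refine hSML R A ?_ S hplt.1.1 hplt.1.2.1
    rw [hdim]
    exact_mod_cast (by omega : n ≤ 1)
  · have hftR : Algebra.FiniteType k R := hft inferInstance
    have h1 : Algebra.EssFiniteType R F := Algebra.EssFiniteType.of_isLocalization F (nonZeroDivisors R)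
    have h2 : Algebra.EssFiniteType k F := Algebra.EssFiniteType.comp k R F
    obtain ⟨hfin, -, -⟩ := hGAL k R A F K G
    have halg : Algebra.IsAlgebraic F K := inferInstance
    obtain ⟨⟨x, hx⟩, -, -⟩ := hLCF k A K n hdim
    obtain ⟨x', hx'⟩ := hTBF k F K n x hx
    have hfr := (hKDI k F n x' hx').2
    exact hCORE k R A F K G n p hn h3 hdim hcod S B ((BR_plt (by omega) hfr S B).1 hplt)

/-- Theorem B. `ι` identifies `R` with the invariants of `G` in `A`. -/
theorem MAIN2 (hCORE : CORE_stmt.{u}) (hSML : SML_stmt.{u}) (hINV : INV_stmt.{u}) (hLCF : LCF_stmt.{u})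
    (hGAL : GAL_stmt.{u}) (hKDI : KDI_stmt.{u}) (hTBF : TBF_stmt.{u}) :
    ∀ (n p : ℕ), p.Prime → 3 * n * (n - 1) < 2 * p → ∀ (k : Type u) [Field k] [IsAlgClosed k] [CharP k p]
    (A : Type u) [CommRing A] [IsDomain A] [Algebra k A] [Algebra.Smooth k A], ringKrullDim A = n →
    ∀ (G : Type u) [Group G] [Finite G] [MulSemiringAction G A] [SMulCommClass G k A],
    (∀ g : G, g ≠ 1 → ∀ Q : Ideal A, Q.IsPrime → Q.height = 1 → ∃ a : A, g • a - a ∉ Q) →
    ∀ (R : Type u) [CommRing R] [IsDomain R] [Algebra k R] (ι : R →ₐ[k] A), Function.Injective ι →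
    (∀ a : A, (∃ r : R, ι r = a) ↔ ∀ g : G, g • a = a) →
    ∀ (S : Ideal R) (B : Ideal R → ℚ), PltPair.IsPlt k (FractionRing R) R n S B →
    IsIntegrallyClosed (R ⧸ S) := by
  intro n p hp h3 k _ _ _ A _ _ _ _ hdim G _ _ _ _ hcod R _ _ _ ι hι hinv S B hplt
  have : Fact p.Prime := ⟨hp⟩
  let _ : Algebra R A := ι.toRingHom.toAlgebra
  have hRA : ∀ r : R, algebraMap R A r = ι r := fun _ => rfl
  have : IsScalarTower k R A := IsScalarTower.of_algebraMap_eq fun c => (ι.commutes c).symm
  have : FaithfulSMul R A := (faithfulSMul_iff_algebraMap_injective R A).2 hι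
  have : SMulCommClass G R A := ⟨fun g r a => by
    rw [Algebra.smul_def, Algebra.smul_def, smul_mul', hRA, (hinv (ι r)).1 ⟨r, rfl⟩ g]⟩
  have : Algebra.IsInvariant R A G := ⟨fun b hb => (hinv b).2 hb⟩
  let _ : Algebra (FractionRing R) (FractionRing A) := FractionRing.liftAlgebra R (FractionRing A)
  have h1 : IsScalarTower R (FractionRing R) (FractionRing A) := FractionRing.isScalarTower_liftAlgebra R _
  have h2 : IsScalarTower k (FractionRing R) (FractionRing A) := by
    refine IsScalarTower.of_algebraMap_eq fun c => ?_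
    rw [IsScalarTower.algebraMap_apply k R (FractionRing R), ← IsScalarTower.algebraMap_apply R (FractionRing R),
      IsScalarTower.algebraMap_apply R A (FractionRing A), ← IsScalarTower.algebraMap_apply k R A,
      ← IsScalarTower.algebraMap_apply k A (FractionRing A)]
  exact MAIN2_aux hCORE hSML hINV hLCF hGAL hKDI hTBF k R A (FractionRing R) (FractionRing A) G n p h3 hdim
    hcod S B hplt

end Pool.Agent.QS
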