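import Pool.Agent.helper51.QS.SpecA
import Pool.Agent.helper51.QS.LMO

/-!
# Row qs:SGB: the values of the logarithmic Jacobians of invariants
-/

set_option autoImplicit false

namespace Pool.Agent.QS

open Pool.Agent.PC

universe u

theorem SGB_det {k K : Type u} [Field k] [Field K] [Algebra k K] {n : ℕ} (D : Fin n → Derivation k K K)
    (y f : Fin n → K) (hy : ∀ i, y i ≠ 0) (_hf : ∀ i, f i ≠ 0) :
    JJ D f / ∏ i, f i = (Matrix.of fun i l => (f i)⁻¹ * (y l * D l (f i))).det / ∏ l, y l := by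
  have h1 := Matrix.det_mul_column (fun i => (f i)⁻¹) (Matrix.of fun i l => y l * D l (f i))
  have h2 := Matrix.det_mul_row y (Matrix.of fun i l => D l (f i))
  simp only [Matrix.of_apply] at h1 h2
  rw [h1, h2, JJ]
  have h3 : ∏ l, y l ≠ 0 := Finset.prod_ne_zero_iff.2 fun i _ => hy i
  rw [Finset.prod_inv_distrib, eq_div_iff h3]
  ring

theorem SGB (hYWV : YWV_stmt.{u}) (hWDR : WDR_stmt.{u}) (hWSG : WSG_stmt.{u}) (hJMX : JMX_stmt.{u})
    (hLDR : LDR_stmt.{u}) (hLMO : LMO_stmt.{u}) (hDET : DET_stmt.{u}) : SGB_stmt.{u} := by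
  intro k A K _ _ _ _ _ _ _ _ _ _ n p _ _ hp m _ y φ D hT hD w v hw hW σ s hs hσm hσp hσ1 hσy f hf
  have hv := hW.1
  have hK : CharP K p := charP_of_injective_algebraMap (algebraMap k K).injective p
  have hw1 : ∀ i, 1 ≤ w i := by
    intro i
    have := hw i
    have := i.2
    omega
  obtain ⟨j, hj, hj1, i0, hi0, hi1⟩ := hJMX k A K n m y φ hT w v hw hW σ hσm hσy hσ1
  have hWS := hWSG k A K n m y φ hT w v hW hw1 σ s hs hσm j hj hj1
  have hWD := fun (i : Fin n) (b : K) (r : ℤ) => hWDR k A K n m y φ D hT hD w v hW i b r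
  obtain ⟨hy, -, -, -, -⟩ := hYWV k A K n m y φ hT w v hW
  -- s has order p
  have hsA : ∀ (q : ℕ) (a : A), (s ^ q) (algebraMap A K a) = algebraMap A K (σ^[q] a) := by
    intro q
    induction q with
    | zero => intro a; rfl
    | succ q ih =>
      intro a
      rw [pow_succ', Function.iterate_succ_apply', ← hs, ← ih]
      rfl
  have hsp : ∀ z : K, s^[p] z = z := by
    intro z
    have h0 : s^[p] z = (s ^ p) z := by rw [RingHom.coe_pow]
    obtain ⟨a, c, -, rfl⟩ := IsFractionRing.div_surjective (A := A) z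
    rw [h0, map_div₀, hsA, hsA, hσp, hσp]
  have hsk : ∀ c : k, s (algebraMap k K c) = algebraMap k K c := by
    intro c
    rw [IsScalarTower.algebraMap_apply k A K, hs, AlgHom.commutes]
  obtain ⟨L, hL1, hL2, hL3, hL4, hL5⟩ := hLDR K p hp s v hv hsp j hj hWS
  have hL6 : ∀ (r : ℤ) (a : K), Ge v r a → Ge v r (L a) := by
    intro r a ha
    have h1 := hL5 r a ha
    have h2 := hWS r a ha
    have h3 : L a = (L a - (s a - a)) + (s a - a) := by ring
    rw [h3]
    exact CON_ge_add hv (CON_ge_mono (by omega) h1) (CON_ge_mono (by omega) h2)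
  have hLM := hLMO k A K n p m y φ D hT hD w v hW hw1 hWD j (by omega) L hL1
    (fun c a => hL2 _ a (hsk c)) hL6 hL4
  -- the matrix
  obtain ⟨M, hM⟩ : ∃ M : Matrix (Fin n) (Fin n) K,
      M = Matrix.of fun i l => (f i)⁻¹ * (algebraMap A K (y l) * D l (f i)) := ⟨_, rfl⟩
  have hM1 : ∀ i l, Ge v 0 (M i l) := by
    intro i l
    rw [hM, Matrix.of_apply]
    refine LMO_cancel hv (hf i).1 ?_
    rw [mul_inv_cancel_left₀ (hf i).1, zero_add]
    exact hWD l (f i) _ (Or.inr le_rfl)
  have hM2 : ∀ i, Ge v (p * j) (∑ l, M i l * (L (algebraMap A K (y l)) / algebraMap A K (y l))) := by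
    intro i
    have h1 := hLM _ _ (Or.inr (le_refl (v (f i))))
    rw [hL3 _ (hf i).2, zero_sub] at h1
    have h2 := CON_ge_neg hv h1
    rw [neg_neg] at h2
    refine LMO_cancel hv (hf i).1 ?_
    have h3 : f i * ∑ l, M i l * (L (algebraMap A K (y l)) / algebraMap A K (y l)) =
        ∑ l, L (algebraMap A K (y l)) * D l (f i) := by
      rw [Finset.mul_sum]
      refine Finset.sum_congr rfl fun l _ => ?_
      rw [hM, Matrix.of_apply]
      have h4 := (hf i).1
      have h5 := (hy l).1
      field_simp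
    rw [h3, add_comm]
    exact h2
  have hℓ : L (algebraMap A K (y i0)) / algebraMap A K (y i0) ≠ 0 ∧
      v (L (algebraMap A K (y i0)) / algebraMap A K (y i0)) = j := by
    have h1 := hL5 _ _ (Or.inr (hy i0).2.ge)
    have h2 : s (algebraMap A K (y i0)) - algebraMap A K (y i0) = algebraMap A K (σ (y i0) - y i0) := by
      rw [hs, map_sub]
    have h3 : algebraMap A K (σ (y i0) - y i0) ≠ 0 := by
      intro h
      rw [map_eq_zero_iff _ (IsFractionRing.injective A K)] at h
      exact hi0 h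
    have h4 : L (algebraMap A K (y i0)) ≠ 0 ∧ v (L (algebraMap A K (y i0))) = w i0 + j := by
      rw [h2] at h1
      by_cases h5 : L (algebraMap A K (y i0)) - algebraMap A K (σ (y i0) - y i0) = 0
      · rw [sub_eq_zero] at h5
        rw [h5]
        exact ⟨h3, hi1⟩
      · have h6 := h1.resolve_left h5
        have h7 := ASA_lt hv h3 h5 (by omega)
        rw [add_sub_cancel] at h7
        rw [hi1] at h7
        exact h7
    refine ⟨div_ne_zero h4.1 (hy i0).1, ?_⟩
    rw [CON_div hv _ _ h4.1 (hy i0).1, h4.2, (hy i0).2]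
    ring
  have hdet := hDET K v hv n M (fun l => L (algebraMap A K (y l)) / algebraMap A K (y l)) (p * j) j i0
    hM1 hM2 hℓ.1 hℓ.2
  have hprod : v (∏ l, algebraMap A K (y l)) = ∑ i, (w i : ℤ) := by
    have h1 : ∀ S : Finset (Fin n), v (∏ l ∈ S, algebraMap A K (y l)) = ∑ i ∈ S, (w i : ℤ) := by
      classical
      intro S
      induction S using Finset.induction_on with
      | empty => rw [Finset.prod_empty, Finset.sum_empty, ASA_v1 hv]
      | insert a S ha ih =>
        rw [Finset.prod_insert ha, Finset.sum_insert ha, hv.mul _ _ (hy a).1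
          (Finset.prod_ne_zero_iff.2 fun i _ => (hy i).1), ih, (hy a).2]
    exact h1 _
  have hprod0 : ∏ l, algebraMap A K (y l) ≠ 0 := Finset.prod_ne_zero_iff.2 fun i _ => (hy i).1
  rw [SGB_det D (fun l => algebraMap A K (y l)) f (fun i => (hy i).1) (fun i => (hf i).1), ← hM]
  refine LMO_cancel hv hprod0 ?_
  rw [mul_div_cancel₀ _ hprod0, hprod, sub_add_cancel]
  refine CON_ge_mono ?_ hdet
  have h8 : (1 : ℤ) ≤ p := by
    have := (Fact.out : p.Prime).one_lt
    omega
  nlinarith

end Pool.Agent.QS
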