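import Pool.Agent.helper51.QS.SpecC
import Pool.Agent.helper51.QS.Lib

/-!
# Row qs:TRI: the three types of primes
-/

set_option autoImplicit false

namespace Pool.Agent.QS

open Pool.Agent.PC

universe u

theorem TRI (hGEN : GEN_stmt.{u}) (hRON : RON_stmt.{u}) (hREG : REG_stmt.{u}) (hLCF : LCF_stmt.{u}) :
    TRI_stmt.{u} := by
  intro k R A F K G _ _ _ _ _ _ _ _ _ _ _ _ _ _ _ _ _ _ _ _ _ _ _ _ _ _ _ _ _ _ _ _ _ _ n p _ _ x hx hfr
    hdim hn2 S ω μ hω hμ hyp Q hQ hIQ m₀ t₀ hm₀ hQm₀ heq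
  obtain ⟨m, h, y, hm, hQm, hhn, hco, hyQ, hgen⟩ := hGEN k A K n hfr Q hQ
  have hQt : Q ≠ ⊤ := hQ.ne_top
  rcases Nat.lt_or_ge h 1 with h0 | h0
  · left
    refine ⟨0, Q.zero_mem, fun b hb => Lib_inn_mono hQm ?_ (hgen b hb)⟩
    rw [Ideal.span_le]
    rintro z ⟨i, hi, -⟩
    exact absurd hi (by omega)
  rcases Nat.lt_or_ge h 2 with h1 | h1
  · left
    refine ⟨y ⟨0, by omega⟩, hyQ _ (by exact h0), fun b hb => Lib_inn_mono hQm ?_ (hgen b hb)⟩
    rw [Ideal.span_le]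
    rintro z ⟨i, hi, rfl⟩
    have h2 : i = ⟨0, by omega⟩ := Fin.ext (by
      have h3 : (i : ℕ) = 0 := by omega
      exact h3)
    rw [h2]
    exact Ideal.subset_span rfl
  rcases Nat.lt_or_ge h 3 with h2 | h2
  · right
    left
    have hh : h = 2 := by omega
    subst hh
    have hS : S ≤ m.comap (algebraMap R A) := by
      rw [← Ideal.map_le_iff_le_comap]
      exact Ideal.le_radical.trans (hIQ.trans hQm)
    obtain ⟨g, t, hg, ht, hdis, heqn, hΨ⟩ := hyp m hm hS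
    obtain ⟨u, hu, hb⟩ := hRON k R A F K G n p x hx hfr hn2 ω μ g hω hg hμ m hdis t ht hΨ Q y hQ hQm
      (hIQ heqn.1) hco (hyQ _ (by exact Nat.zero_lt_two)) (hyQ _ (by exact Nat.one_lt_two)) hgen
    obtain ⟨s, hs, hst⟩ := heq.2 t heqn.1
    refine ⟨u, hu, fun b hbQ => ?_⟩
    obtain ⟨s', hs', h3⟩ := hb b hbQ
    refine ⟨s * s', fun h4 => (hQ.mem_or_mem h4).elim (fun h5 => hs (hQm₀ h5)) hs', ?_⟩
    rw [Ideal.mem_span_pair] at h3
    obtain ⟨α, β, h3⟩ := h3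
    rw [mul_assoc, ← h3]
    have h4 : s * (α * t + β * u) = α * (s * t) + s * β * u := by ring
    rw [h4]
    refine Ideal.add_mem _ (Ideal.mul_mem_left _ _ ?_) (Ideal.mul_mem_left _ _ (Ideal.subset_span (by simp)))
    exact Ideal.span_mono (by simp) hst
  · right
    right
    have h3 : 3 ≤ n := by omega
    have hnoe : IsNoetherianRing A := Algebra.FiniteType.isNoetherianRing k A
    obtain ⟨-, -, hm1⟩ := hLCF k A K n hdim
    obtain ⟨φ, hφ⟩ := (hm1 m).2.1 y hco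
    obtain ⟨hr0, hr1, hr2⟩ := hREG k A n m y φ hφ Q hQ hQm h3
    exact ⟨_, hyQ _ (by exact h0), _, hyQ _ (by exact h1), _, hyQ _ (by exact h2), hr0, hr1, hr2⟩

end Pool.Agent.QS
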