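import Pool.Agent.helper51.QS.SpecA
import Pool.Agent.helper51.QS.LMO

/-!
# Row qs:WSG: an automorphism which moves the coordinates little moves everything little
-/

set_option autoImplicit false

namespace Pool.Agent.QS

open Pool.Agent.PC

universe u

theorem WSG : WSG_stmt.{u} := by
  intro k A K _ _ _ _ _ _ _ n m _ y φ hT w v hW hw σ s hs hσm j hj hy1
  have hv := hW.1
  have hy := LMO_wpos (K := K) hT hW
  -- the error
  obtain ⟨E, hE⟩ : ∃ E : K → K, ∀ b, E b = s b - b := ⟨_, fun _ => rfl⟩
  have hEadd : ∀ a b, E (a + b) = E a + E b := by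
    intro a b
    rw [hE, hE, hE, map_add]
    ring
  have hE0 : E 0 = 0 := by
    rw [hE, map_zero, sub_zero]
  have hElin : ∀ (c : k) (a : K), E (algebraMap A K (algebraMap k A c) * a) =
      algebraMap A K (algebraMap k A c) * E a := by
    intro c a
    rw [hE, hE, map_mul, hs, AlgHom.commutes, mul_sub]
  have hEder : ∀ (r r' : ℤ) (a b : K), Ge v r a → Ge v r' b → Ge v (r + j) (E a) → Ge v (r' + j) (E b) →
      Ge v (r + r' + j) (E (a * b)) := by
    intro r r' a b ha hb hEa hEb
    have h1 : E (a * b) = E a * b + (E a * E b + a * E b) := by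
      rw [hE, hE, hE, map_mul]
      ring
    rw [h1]
    refine CON_ge_add hv ?_ (CON_ge_add hv ?_ ?_)
    · exact CON_ge_mono (by omega) (CON_ge_mul hv hEa hb)
    · exact CON_ge_mono (by omega) (CON_ge_mul hv hEa hEb)
    · exact CON_ge_mono (by omega) (CON_ge_mul hv ha hEb)
  have hEy : ∀ i, Ge v (w i + j) (E (algebraMap A K (y i))) := by
    intro i
    have h1 : E (algebraMap A K (y i)) = algebraMap A K (σ (y i) - y i) := by
      rw [hE, hs, map_sub]
    rw [h1]
    exact hy1 i
  have hE1 : E 1 = 0 := by rw [hE, map_one, sub_self]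
  -- monomials
  obtain ⟨g, hg⟩ : ∃ g : (Fin n →₀ ℕ) → K, ∀ α, g α =
      algebraMap A K (MvPolynomial.aeval y (MvPolynomial.monomial α (1 : k))) := ⟨_, fun _ => rfl⟩
  have hg0 : g 0 = 1 := by
    rw [hg, MvPolynomial.monomial_zero', MvPolynomial.C_1, map_one, map_one]
  have hgadd : ∀ α β, g (α + β) = g α * g β := by
    intro α β
    rw [hg, hg, hg, ← map_mul, ← map_mul, MvPolynomial.monomial_mul, one_mul]
  have hg1 : ∀ i, g (Finsupp.single i 1) = algebraMap A K (y i) := by
    intro i
    rw [hg]
    exact congrArg _ (MvPolynomial.aeval_X y i)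
  have hgge : ∀ α : Fin n →₀ ℕ, Ge v (Finsupp.weight w α : ℕ) (g α) := by
    intro α
    rw [hg, hW.2, Lib_aeval hT]
    intro β hβ
    rw [MvPolynomial.coeff_coe, MvPolynomial.coeff_monomial, if_neg]
    rintro rfl
    exact lt_irrefl _ hβ
  have hmon : ∀ α : Fin n →₀ ℕ, Ge v ((Finsupp.weight w α : ℕ) + j) (E (g α)) := by
    have hadd : ∀ α β : Fin n →₀ ℕ, Ge v ((Finsupp.weight w α : ℕ) + j) (E (g α)) →
        Ge v ((Finsupp.weight w β : ℕ) + j) (E (g β)) →
        Ge v ((Finsupp.weight w (α + β) : ℕ) + j) (E (g (α + β))) := by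
      intro α β h1 h2
      rw [hgadd, map_add]
      have h3 := hEder _ _ _ _ (hgge α) (hgge β) h1 h2
      push_cast
      exact h3
    intro α
    induction α using Finsupp.induction_linear with
    | zero =>
      rw [hg0, hE1]
      exact Or.inl rfl
    | add f g hf hg => exact hadd f g hf hg
    | single i e =>
      induction e with
      | zero =>
        rw [Finsupp.single_zero, hg0, hE1]
        exact Or.inl rfl
      | succ e ih =>
        rw [Finsupp.single_add]
        refine hadd _ _ ih ?_
        rw [hg1, Finsupp.weight_single, smul_eq_mul, one_mul]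
        exact hEy i
  -- sums
  have hEsum : ∀ (S : Finset (Fin n →₀ ℕ)) (g : (Fin n →₀ ℕ) → K), E (∑ α ∈ S, g α) = ∑ α ∈ S, E (g α) := by
    classical
    intro S g
    induction S using Finset.induction_on with
    | empty => rw [Finset.sum_empty, Finset.sum_empty, hE0]
    | insert a S ha ih => rw [Finset.sum_insert ha, Finset.sum_insert ha, hEadd, ih]
  -- elements of A
  have hA : ∀ (r : ℤ) (b : A), Ge v r (algebraMap A K b) → Ge v (r + j) (E (algebraMap A K b)) := by
    intro r b hb
    obtain ⟨N, hN⟩ : ∃ N : ℕ, r + j ≤ N := ⟨(r + j).toNat, Int.self_le_toNat _⟩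
    have h1 := Lib_trunc hT b N
    have h2 := Lib_WN hT hW 1 hw N _ (Lib_sigma σ hσm N _ h1)
    rw [one_mul, map_sub, ← hs, ← hE] at h2
    have h3 := CON_ge_mono hN h2
    have h4 : algebraMap A K b = algebraMap A K (b - MvPolynomial.aeval y (MvPowerSeries.truncTotal N (φ b))) +
        algebraMap A K (MvPolynomial.aeval y (MvPowerSeries.truncTotal N (φ b))) := by
      rw [← map_add, sub_add_cancel]
    rw [h4, hEadd]
    refine CON_ge_add hv h3 ?_
    have h5 : algebraMap A K (MvPolynomial.aeval y (MvPowerSeries.truncTotal N (φ b))) =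
        ∑ α ∈ (MvPowerSeries.truncTotal N (φ b)).support,
          algebraMap A K (algebraMap k A (MvPolynomial.coeff α (MvPowerSeries.truncTotal N (φ b)))) * g α := by
      conv_lhs => rw [MvPolynomial.as_sum (MvPowerSeries.truncTotal N (φ b)), map_sum, map_sum]
      refine Finset.sum_congr rfl fun α _ => ?_
      rw [hg, MvPolynomial.aeval_monomial, MvPolynomial.aeval_monomial, map_one, one_mul, map_mul]
    rw [h5, hEsum]
    have h6 : ∀ α ∈ (MvPowerSeries.truncTotal N (φ b)).support, Ge v (r + j)
        (E (algebraMap A K (algebraMap k A (MvPolynomial.coeff α (MvPowerSeries.truncTotal N (φ b)))) * g α)) := by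
      intro α hα
      rw [hElin]
      have h7 : Ge v 0 (algebraMap A K (algebraMap k A
          (MvPolynomial.coeff α (MvPowerSeries.truncTotal N (φ b))))) := Lib_W0 hW _
      have h8 : r ≤ (Finsupp.weight w α : ℕ) := by
        refine Lib_W hW r b hb α ?_
        rw [MvPolynomial.mem_support_iff] at hα
        by_cases hdeg : α.degree < N
        · rwa [MvPowerSeries.coeff_truncTotal _ hdeg] at hα
        · exact absurd (MvPowerSeries.coeff_truncTotal_eq_zero _ (not_lt.1 hdeg)) hα
      refine CON_ge_mono ?_ (CON_ge_mul hv h7 (hmon α))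
      omega
    clear h5
    generalize (MvPowerSeries.truncTotal N (φ b)).support = S at h6 ⊢
    classical
    induction S using Finset.induction_on with
    | empty => exact Or.inl Finset.sum_empty
    | insert a S ha ih =>
      rw [Finset.sum_insert ha]
      exact CON_ge_add hv (h6 a (Finset.mem_insert_self a S))
        (ih fun i hi => h6 i (Finset.mem_insert_of_mem hi))
  -- all elements
  intro r b hb
  rw [← hE]
  obtain ⟨a, c, hc, rfl⟩ := IsFractionRing.div_surjective (A := A) b
  have hc0 : algebraMap A K c ≠ 0 := by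
    intro h
    rw [map_eq_zero_iff _ (IsFractionRing.injective A K)] at h
    rw [h] at hc
    exact zero_notMem_nonZeroDivisors hc
  have h1 := hA (v (algebraMap A K c)) c (Or.inr le_rfl)
  have h3 : Ge v (r + v (algebraMap A K c)) (algebraMap A K a) := by
    have h := CON_ge_mul hv hb (Or.inr (le_refl (v (algebraMap A K c))))
    rwa [div_mul_cancel₀ _ hc0] at h
  have h4 := hA _ a h3
  have h5 := CON_ge_mul hv hb h1
  have hsc : s (algebraMap A K c) ≠ 0 ∧ v (s (algebraMap A K c)) = v (algebraMap A K c) := by
    have h6 : s (algebraMap A K c) = algebraMap A K c + E (algebraMap A K c) := by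
      rw [hE]
      ring
    rw [h6]
    by_cases h7 : E (algebraMap A K c) = 0
    · rw [h7, add_zero]
      exact ⟨hc0, rfl⟩
    · have h8 := h1.resolve_left h7
      exact ASA_lt hv hc0 h7 (by omega)
  refine LMO_cancel hv hsc.1 ?_
  have h6 : s (algebraMap A K c) * E (algebraMap A K a / algebraMap A K c) =
      E (algebraMap A K a) - algebraMap A K a / algebraMap A K c * E (algebraMap A K c) := by
    rw [hE, hE, hE, map_div₀]
    have h9 := hsc.1
    field_simp
    ring
  rw [h6, hsc.2]
  refine CON_ge_sub hv (CON_ge_mono ?_ h4) (CON_ge_mono ?_ h5)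
  · linarith
  · linarith

end Pool.Agent.QS
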