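import Pool.Agent.helper39.QS.TRB
import Pool.Agent.helper51.QS.KDI2
import Pool.Agent.helper36.QS.CRE
import Pool.Agent.helper16.QS.DUA
import Pool.Agent.helper85.QS.QRR
import Pool.Agent.helper16.QS.TAY
import Pool.Agent.helper46.QS.TDR
import Pool.Agent.helper23.QS.FFL
import Pool.Agent.helper23.QS.PYY
import Pool.Agent.helper40.QS.WVL
import Pool.Agent.helper23.QS.YWV
import Pool.Agent.helper50.QS.WDR
import Pool.Agent.helper74.QS.WLG
import Pool.Agent.helper83.QS.WTR
import Pool.Agent.helper68.QS.WCT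
import Pool.Agent.helper51.QS.WSG
import Pool.Agent.helper89.QS.FLG
import Pool.Agent.helper83.QS.JMX
import Pool.Agent.helper51.QS.LDR
import Pool.Agent.helper51.QS.LMO
import Pool.Agent.helper77.QS.DET
import Pool.Agent.helper51.QS.SGB
import Pool.Agent.helper54.QS.PSI
import Pool.Agent.helper79.QS.VBD
import Pool.Agent.helper53.QS.DVF
import Pool.Agent.helper53.QS.DIS
import Pool.Agent.helper79.QS.SPN
import Pool.Agent.helper2.QS.ETC
import Pool.Agent.helper45.QS.ETJ
import Pool.Agent.helper82.QS.LVQ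
import Pool.Agent.helper79.QS.LRF
import Pool.Agent.helper77.QS.EHQ
import Pool.Agent.helper21.QS.HTP
import Pool.Agent.helper75.QS.RAD
import Pool.Agent.helper68.QS.GHM
import Pool.Agent.helper21.QS.PS1
import Pool.Agent.helper21.QS.PS2
import Pool.Agent.helper24.QS.PS3
import Pool.Agent.helper54.QS.PSU
import Pool.Agent.helper2.QS.UFL
import Pool.Agent.helper23.QS.NRA
import Pool.Agent.helper41.QS.TEQ
import Pool.Agent.helper93.QS.RPM
import Pool.Agent.helper23.QS.INV
import Pool.Agent.helper84.QS.GAL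
import Pool.Agent.helper23.QS.TBF
import Pool.Agent.helper50.QS.CEH
import Pool.Agent.helper51.QS.DSQ
import Pool.Agent.helper6.QS.WLD
import Pool.Agent.helper93.QS.TRC
import Pool.Agent.helper63.QS.GE1
import Pool.Agent.helper93.QS.GE2
import Pool.Agent.helper11.QS.GE4
import Pool.Agent.helper10.QS.GEN
import Pool.Agent.helper23.QS.REG
import Pool.Agent.helper8.QS.RON
import Pool.Agent.helper23.QS.UNM
import Pool.Agent.helper52.QS.DV1
import Pool.Agent.helper92.QS.NRM
import Pool.Agent.helper32.QS.DSC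
import Pool.Agent.helper11.QS.LCF
import Pool.Agent.helper51.QS.TRI
import Pool.Agent.helper54.QS.CORE
import Pool.Agent.helper23.QS.SML
import Pool.Agent.helper51.QS.MAIN2

/-!
# Project qs (MP_74cfa5_ag): assembly of all rows
-/

set_option autoImplicit false

namespace Pool.Agent.QS

universe u

theorem all_TRB : TRB_stmt.{u} := TRB

theorem all_KDI : KDI_stmt.{u} := KDI2

theorem all_CRE : CRE_stmt.{u} := CRE

theorem all_DUA : DUA_stmt.{u} := DUA

theorem all_QRR : QRR_stmt.{u} := QRR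

theorem all_TAY : TAY_stmt.{u} := TAY

theorem all_TDR : TDR_stmt.{u} := TDR

theorem all_FFL : FFL_stmt.{u} := FFL

theorem all_PYY : PYY_stmt.{u} := PYY all_FFL

theorem all_WVL : WVL_stmt.{u} := WVL

theorem all_YWV : YWV_stmt.{u} := YWV

theorem all_WDR : WDR_stmt.{u} := WDR all_TDR

theorem all_WLG : WLG_stmt.{u} := WLG

theorem all_WTR : WTR_stmt.{u} := WTR

theorem all_WCT : WCT_stmt.{u} := WCT all_FFL

theorem all_WSG : WSG_stmt.{u} := WSG

theorem all_FLG : FLG_stmt.{u} := FLG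

theorem all_JMX : JMX_stmt.{u} := JMX

theorem all_LDR : LDR_stmt.{u} := LDR

theorem all_LMO : LMO_stmt.{u} := LMO

theorem all_DET : DET_stmt.{u} := DET

theorem all_SGB : SGB_stmt.{u} := SGB all_YWV all_WDR all_WSG all_JMX all_LDR all_LMO all_DET

theorem all_PSI : PSI_stmt.{u} := PSI

theorem all_VBD : VBD_stmt.{u} := VBD

theorem all_DVF : DVF_stmt.{u} := DVF

theorem all_DIS : DIS_stmt.{u} := DIS all_VBD

theorem all_SPN : SPN_stmt.{u} := SPN

theorem all_ETC : ETC_stmt.{u} := ETC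

theorem all_ETJ : ETJ_stmt.{u} := ETJ all_SPN all_ETC

theorem all_LVQ : LVQ_stmt.{u} := LVQ

theorem all_LRF : LRF_stmt.{u} := LRF

theorem all_EHQ : EHQ_stmt.{u} := EHQ

theorem all_HTP : HTP_stmt.{u} := HTP

theorem all_RAD : RAD_stmt.{u} := RAD all_HTP

theorem all_GHM : GHM_stmt.{u} := GHM all_ETJ all_LRF all_EHQ all_HTP

theorem all_PS1 : PS1_stmt.{u} := PS1

theorem all_PS2 : PS2_stmt.{u} := PS2

theorem all_PS3 : PS3_stmt.{u} := PS3

theorem all_PSU : PSU_stmt.{u} := PSU all_PS1 all_PS2 all_PS3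

theorem all_UFL : UFL_stmt.{u} := UFL all_FFL

theorem all_NRA : NRA_stmt.{u} := NRA

theorem all_TEQ : TEQ_stmt.{u} := TEQ all_LVQ

theorem all_RPM : RPM_stmt.{u} := RPM all_TEQ all_GHM all_RAD

theorem all_INV : INV_stmt.{u} := INV

theorem all_GAL : GAL_stmt.{u} := GAL

theorem all_TBF : TBF_stmt.{u} := TBF

theorem all_CEH : CEH_stmt.{u} := CEH

theorem all_DSQ : DSQ_stmt.{u} := DSQ all_DVF all_DIS all_CEH

theorem all_WLD : WLD_stmt.{u} := WLD all_CRE all_DUA all_QRR all_TAY all_PYY all_WVL all_YWV all_WTR all_FLG all_SGB all_PSI all_GAL all_DSQ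

theorem all_TRC : TRC_stmt.{u} := TRC

theorem all_GE1 : GE1_stmt.{u} := GE1 all_KDI

theorem all_GE2 : GE2_stmt.{u} := GE2

theorem all_GE4 : GE4_stmt.{u} := GE4

theorem all_GEN : GEN_stmt.{u} := GEN all_KDI all_CRE all_QRR all_TAY all_PYY all_GE1 all_GE2 all_GE4

theorem all_REG : REG_stmt.{u} := REG all_PYY

theorem all_RON : RON_stmt.{u} := RON all_DUA all_QRR all_TAY all_PYY all_WVL all_YWV all_WDR all_WLG all_WTR all_PSI all_GAL all_DSQ

theorem all_UNM : UNM_stmt.{u} := UNM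

theorem all_DV1 : DV1_stmt.{u} := DV1

theorem all_NRM : NRM_stmt.{u} := NRM all_UNM all_DV1

theorem all_DSC : DSC_stmt.{u} := DSC all_RAD

theorem all_LCF : LCF_stmt.{u} := LCF all_TRB all_KDI all_CRE all_QRR all_TAY all_FFL all_PSU all_UFL

theorem all_TRI : TRI_stmt.{u} := TRI all_GEN all_RON all_REG all_LCF

theorem all_CORE : CORE_stmt.{u} := CORE all_LCF all_NRA all_INV all_GAL all_TBF all_HTP all_RAD all_RPM all_WLD all_TRC all_TRI all_NRM all_DSC

theorem all_SML : SML_stmt.{u} := SML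

/-- Theorem B -/
theorem ALL : ∀ (n p : ℕ), p.Prime → 3 * n * (n - 1) < 2 * p → ∀ (k : Type u) [Field k] [IsAlgClosed k] [CharP k p]
    (A : Type u) [CommRing A] [IsDomain A] [Algebra k A] [Algebra.Smooth k A], ringKrullDim A = n →
    ∀ (G : Type u) [Group G] [Finite G] [MulSemiringAction G A] [SMulCommClass G k A],
    (∀ g : G, g ≠ 1 → ∀ Q : Ideal A, Q.IsPrime → Q.height = 1 → ∃ a : A, g • a - a ∉ Q) →
    ∀ (R : Type u) [CommRing R] [IsDomain R] [Algebra k R] (ι : R →ₐ[k] A), Function.Injective ι →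
    (∀ a : A, (∃ r : R, ι r = a) ↔ ∀ g : G, g • a = a) →
    ∀ (S : Ideal R) (B : Ideal R → ℚ), PltPair.IsPlt k (FractionRing R) R n S B →
    IsIntegrallyClosed (R ⧸ S) :=
  MAIN2 all_CORE all_SML all_INV all_LCF all_GAL all_KDI all_TBF

end Pool.Agent.QS
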