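import Pool.Agent.helper32.QS.Spec

/-!
# Module FS2 of project QS
-/

set_option autoImplicit false

open scoped BigOperators commutatorElement

namespace QS

theorem FS2_pow {H : Type} [Group H] (z t : H) (hc : ⁅z, t⁆ * z = z * ⁅z, t⁆) (i : ℕ) :
    z ^ i * t = ⁅z, t⁆ ^ i * t * z ^ i := by
  have h0 : z * t = ⁅z, t⁆ * t * z := by
    rw [commutatorElement_def]; group
  have hcz : ∀ j : ℕ, z * ⁅z, t⁆ ^ j = ⁅z, t⁆ ^ j * z := fun j =>
    ((show Commute z ⁅z, t⁆ from hc.symm).pow_right j).eq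
  induction i with
  | zero => simp
  | succ i ih =>
    calc z ^ (i + 1) * t = z * (z ^ i * t) := by rw [pow_succ', mul_assoc]
      _ = z * (⁅z, t⁆ ^ i * t * z ^ i) := by rw [ih]
      _ = (z * ⁅z, t⁆ ^ i) * t * z ^ i := by simp only [mul_assoc]
      _ = ⁅z, t⁆ ^ i * (z * t) * z ^ i := by rw [hcz]; simp only [mul_assoc]
      _ = ⁅z, t⁆ ^ i * (⁅z, t⁆ * t * z) * z ^ i := by rw [← h0]
      _ = ⁅z, t⁆ ^ (i + 1) * t * z ^ (i + 1) := by
        rw [pow_succ, pow_succ']; simp only [mul_assoc]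

theorem FS2_comm {k U H : Type} [Field k] [AddCommGroup U] [Module k U] [Group H]
    [DistribMulAction H U] (hf : Fai H U) {a c : H} (ha : a ∈ SA k U H) (hc : c ∈ SC k U H) :
    a * c = c * a := by
  obtain ⟨l, hl⟩ := ha
  have h1 : (c * a)⁻¹ * (a * c) = 1 := by
    apply hf
    intro v
    rw [mul_smul, inv_smul_eq_iff, mul_smul, mul_smul, hl, hl]
    exact (hc _ _).symm
  exact (inv_mul_eq_one.1 h1).symm

/-- the dimension estimate: `dim Fix(z)` is at most half of `n + dim Fix(⁅z, u⁆)` -/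
theorem FS2_dim {k U H : Type} [Field k] [Finite k] [AddCommGroup U] [Module k U] [Finite U]
    [Group H] [DistribMulAction H U] (z u : H) (hz : z ∈ SC k U H) (hu : u ∈ SC k U H) (d' : ℕ)
    (hd' : Nat.card {v : U // ⁅z, u⁆ • v = v} = Nat.card k ^ d') :
    ∃ d : ℕ, 2 * d ≤ Module.finrank k U + d' ∧ Nat.card {v : U // z • v = v} = Nat.card k ^ d := by
  have hfin : Module.Finite k U := Module.Finite.of_finite
  have hw : ⁅z, u⁆ ∈ SC k U H := by
    rw [commutatorElement_def]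
    exact mul_mem (mul_mem (mul_mem hz hu) (inv_mem hz)) (inv_mem hu)
  let D : Submodule k U :=
    { carrier := {v | z • v = v}
      add_mem' := by
        intro a b ha hb
        show z • (a + b) = a + b
        rw [smul_add, show z • a = a from ha, show z • b = b from hb]
      zero_mem' := smul_zero z
      smul_mem' := by
        intro c a ha
        show z • (c • a) = c • a
        rw [hz, show z • a = a from ha] }
  let D' : Submodule k U :=
    { carrier := {v | ⁅z, u⁆ • v = v}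
      add_mem' := by
        intro a b ha hb
        show ⁅z, u⁆ • (a + b) = a + b
        rw [smul_add, show ⁅z, u⁆ • a = a from ha, show ⁅z, u⁆ • b = b from hb]
      zero_mem' := smul_zero _
      smul_mem' := by
        intro c a ha
        show ⁅z, u⁆ • (c • a) = c • a
        rw [hw, show ⁅z, u⁆ • a = a from ha] }
  let T : U →ₗ[k] U :=
    { toFun := fun v => u • v
      map_add' := fun a b => smul_add u a b
      map_smul' := fun a v => hu a v }
  have hTi : Function.Injective T := MulAction.injective u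
  have hle : D ⊓ D.map T ≤ D' := by
    intro v hv
    obtain ⟨hv1, hv2⟩ := Submodule.mem_inf.1 hv
    obtain ⟨a, ha, hav⟩ := Submodule.mem_map.1 hv2
    have ha' : z • a = a := ha
    have hav' : u • a = v := hav
    have hv1' : z • v = v := hv1
    show ⁅z, u⁆ • v = v
    rw [commutatorElement_def, mul_smul, mul_smul, mul_smul]
    rw [← hav', inv_smul_smul]
    have h1 : z⁻¹ • a = a := by rw [inv_smul_eq_iff, ha']
    rw [h1, hav', hv1']
  have h1 := Submodule.finrank_sup_add_finrank_inf_eq D (D.map T)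
  have h2 : Module.finrank k (D.map T) = Module.finrank k D :=
    (LinearEquiv.finrank_eq (Submodule.equivMapOfInjective T hTi D)).symm
  have h3 : Module.finrank k (D ⊔ D.map T : Submodule k U) ≤ Module.finrank k U :=
    Submodule.finrank_le _
  have h4 : Module.finrank k (D ⊓ D.map T : Submodule k U) ≤ Module.finrank k D' :=
    Submodule.finrank_mono hle
  have h5 : Module.finrank k D' = d' := by
    have h6 : Nat.card D' = Nat.card k ^ Module.finrank k D' :=
      Module.natCard_eq_pow_finrank (K := k) (V := D')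
    have h7 : Nat.card D' = Nat.card {v : U // ⁅z, u⁆ • v = v} := rfl
    rw [h7, hd'] at h6
    exact (Nat.pow_right_injective (Finite.one_lt_card (α := k)) h6).symm
  refine ⟨Module.finrank k D, by omega, ?_⟩
  rw [← Module.natCard_eq_pow_finrank (K := k) (V := D)]
  rfl

theorem FS2_key (hFS1 : FS1_stmt) (k U H : Type) [Field k] [Finite k] [AddCommGroup U]
    [Module k U] [Finite U] [Group H] [Finite H] [DistribMulAction H U] (hD : SLD k U H)
    (S : Subgroup H) (hS : SSt k U H S) (z u : H) (hz : z ∈ SC k U H) (hu : u ∈ S)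
    (hzu : ⁅z, u⁆ ∉ SA k U H) :
    (∃ d : ℕ, 4 * d ≤ 3 * Module.finrank k U ∧ Nat.card {u : U // z • u = u} = Nat.card k ^ d) ∧
    (∀ p : ℕ, p.Prime → 5 ≤ p → ⁅z, u⁆ ^ p ∈ SA k U H →
      ∃ d : ℕ, 5 * d ≤ 3 * Module.finrank k U ∧
        Nat.card {u : U // z • u = u} = Nat.card k ^ d) := by
  have hwS : ⁅z, u⁆ ∈ S := by
    rw [commutatorElement_def]
    exact mul_mem (hS.norm.conj_mem u hu z) (inv_mem hu)
  have hwC : ⁅z, u⁆ ∈ SC k U H := hS.hC hwS
  have huC : u ∈ SC k U H := hS.hC hu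
  obtain ⟨t, ht, hne⟩ : ∃ t ∈ S, ⁅z, u⁆ * t ≠ t * ⁅z, u⁆ := by
    by_contra hcon
    exact hzu (hS.cent _ hwS (fun y hy => by
      by_contra hne
      exact hcon ⟨y, hy, hne⟩))
  have htC : t ∈ SC k U H := hS.hC ht
  have hcA : ⁅⁅z, u⁆, t⁆ ∈ SA k U H := hS.comm _ hwS t ht
  have hc1 : ⁅⁅z, u⁆, t⁆ ≠ 1 := by
    intro h
    exact hne (commutatorElement_eq_one_iff_mul_comm.1 h)
  constructor
  · have h2 : 2 ≤ orderOf ⁅⁅z, u⁆, t⁆ := by
      have h3 : 0 < orderOf ⁅⁅z, u⁆, t⁆ := orderOf_pos _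
      have h4 : orderOf ⁅⁅z, u⁆, t⁆ ≠ 1 := by
        intro h; exact hc1 (orderOf_eq_one_iff.1 h)
      omega
    obtain ⟨d', hd1, hd2⟩ := hFS1 k U H hD _ hwC t htC hcA 2 h2
    obtain ⟨d, hd3, hd4⟩ := FS2_dim z u hz huC d' hd2
    exact ⟨d, by omega, hd4⟩
  · intro p hp hp5 hwp
    have hcp : ⁅⁅z, u⁆, t⁆ ^ p = 1 := by
      have h1 := FS2_pow ⁅z, u⁆ t (FS2_comm hD.faith hcA hwC) p
      rw [mul_assoc, ← FS2_comm hD.faith hwp htC] at h1
      exact mul_eq_right.1 h1.symm
    have : Fact p.Prime := ⟨hp⟩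
    have ho : orderOf ⁅⁅z, u⁆, t⁆ = p := orderOf_eq_prime hcp hc1
    obtain ⟨d', hd1, hd2⟩ := hFS1 k U H hD _ hwC t htC hcA 5 (by omega)
    obtain ⟨d, hd3, hd4⟩ := FS2_dim z u hz huC d' hd2
    exact ⟨d, by omega, hd4⟩

theorem FS2 (hK2 : K2_stmt) (hFS1 : FS1_stmt) : FS2_stmt := by
  intro k U H _ _ _ _ _ _ _ _ hD S hS
  refine ⟨fun z hz hzS => ?_, fun p hp hp5 z hz u hu hzu hwp =>
    (FS2_key hFS1 k U H hD S hS z u hz hu hzu).2 p hp hp5 hwp⟩
  obtain ⟨u, hu, hzu⟩ : ∃ u ∈ S, ⁅z, u⁆ ∉ SA k U H := by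
    by_contra hcon
    exact hzS (hS.self z hz (fun s hs => by
      by_contra h
      exact hcon ⟨s, hs, h⟩))
  exact (FS2_key hFS1 k U H hD S hS z u hz hu hzu).1

end QS
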