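import Pool.Agent.helper51.PC.Spec

/-!
# Project qs (MP_74cfa5_ag, plt centres on quotient singularities): definitions for the rows
-/

set_option autoImplicit false

namespace Pool.Agent.QS

open Pool.Agent.PC

universe u

section charts

variable (k : Type u) [Field k] {A : Type u} [CommRing A] [Algebra k A] {n : ℕ}

/-- `y` is a system of coordinates at `m`: its classes are a basis of `m / m ^ 2` over `k`. -/
def Coord (m : Ideal A) (y : Fin n → A) : Prop :=
  (∀ i, y i ∈ m) ∧ (∀ c : Fin n → k, ∑ i, c i • y i ∈ m ^ 2 → c = 0) ∧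
  ∀ b ∈ m, ∃ c : Fin n → k, b - ∑ i, c i • y i ∈ m ^ 2

variable {k}

/-- `D` are derivations of the field of fractions `K` of `A`, dual to `dy`, which map `A` into the local ring
at `m`. -/
def Dual {K : Type u} [Field K] [Algebra k K] [Algebra A K] (m : Ideal A) (y : Fin n → A)
    (D : Fin n → Derivation k K K) : Prop :=
  (∀ i j, D i (algebraMap A K (y j)) = if i = j then 1 else 0) ∧
  ∀ (i : Fin n) (a : A), ∃ b s : A, s ∉ m ∧
    D i (algebraMap A K a) = algebraMap A K b / algebraMap A K s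

/-- `φ` is the Taylor expansion at `m` in the coordinates `y`. -/
def Taylor (m : Ideal A) (y : Fin n → A) (φ : A →ₐ[k] MvPowerSeries (Fin n) k) : Prop :=
  (∀ i, φ (y i) = MvPowerSeries.X i) ∧
  ∀ (N : ℕ) (b : A), b ∈ m ^ N ↔
    ∀ α : Fin n →₀ ℕ, α.degree < N → MvPowerSeries.coeff α (φ b) = 0

/-- `v` is the monomial valuation with the weights `w` in the coordinates of the Taylor expansion `φ`. -/
def IsW {K : Type u} [Field K] [Algebra A K] (φ : A →ₐ[k] MvPowerSeries (Fin n) k) (w : Fin n → ℕ)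
    (v : K → ℤ) : Prop :=
  DVal v ∧ ∀ (a : A) (r : ℕ), Ge v r (algebraMap A K a) ↔
    ∀ α : Fin n →₀ ℕ, Finsupp.weight w α < r → MvPowerSeries.coeff α (φ a) = 0

end charts

section desc

variable {k : Type u} [Field k] {F K : Type u} [Field F] [Field K] [Algebra k F] [Algebra k K]
  [Algebra F K] {n : ℕ}

/-- The logarithmic Jacobians of the elements of `F` have value at least `c`. -/
def LogGe (F : Type u) [Field F] [Algebra F K] (v : K → ℤ) (D : Fin n → Derivation k K K) (c : ℤ) :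
    Prop :=
  ∀ f : Fin n → F, (∀ i, f i ≠ 0) →
    Ge v c (JJ D (fun i => algebraMap F K (f i)) / ∏ i, algebraMap F K (f i))

/-- `O` is the valuation ring of the restriction of `v` to `F`, with the uniformizer `w`. -/
def Restr (v : K → ℤ) (O : ValuationSubring F) (w : F) : Prop :=
  (∀ x : F, x ∈ O ↔ Ge v 0 (algebraMap F K x)) ∧ IsUnif O w ∧ 0 < v (algebraMap F K w) ∧
  ∀ (x : F) (t : ℤ), x ≠ 0 → (HasOrd O x t ↔ v (algebraMap F K x) = t * v (algebraMap F K w))

/-- `Ψ` is the pull back of forms of degree `n`. -/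
def IsPsi [IsScalarTower k F K] (D : Fin n → Derivation k K K) (Ψ : Form k F n →ₗ[F] K) : Prop :=
  (∀ f : Fin n → F, Ψ (dd k f) = JJ D fun i => algebraMap F K (f i)) ∧
  (∀ ξ, Ψ ξ = 0 → ξ = 0) ∧ ∀ ω ξ : Form k F n, ω ≠ 0 → ∃ x : F, ξ = x • ω

end desc

section loc

variable {A K : Type u} [CommRing A] [Field K] [Algebra A K]

/-- `v` is the normalised valuation of the local ring `A_Q`. -/
def LocV (Q : Ideal A) (v : K → ℤ) : Prop :=
  DVal v ∧ (∀ x : K, Ge v 0 x ↔ ∃ a s : A, s ∉ Q ∧ x = algebraMap A K a / algebraMap A K s) ∧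
  ∀ a : A, a ∈ Q ↔ Ge v 1 (algebraMap A K a)

/-- `a` lies in `J A_Q`. -/
def Inn (Q J : Ideal A) (a : A) : Prop := ∃ s : A, s ∉ Q ∧ s * a ∈ J

/-- `t` is a local equation at `m` of the closed set of the radical ideal `I`. -/
def Eqn (m I : Ideal A) (t : A) : Prop := t ∈ I ∧ ∀ b ∈ I, Inn m (Ideal.span {t}) b

/-- The three types of primes: (a) `Q A_Q` is principal; (b) `Q A_Q` is generated by `t` and one more
element; (c) `Q` contains a regular sequence of length `3` of `A_Q`. -/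
def Tri (Q : Ideal A) (t : A) : Prop :=
  (∃ d ∈ Q, ∀ b ∈ Q, Inn Q (Ideal.span {d}) b) ∨
  (∃ u ∈ Q, ∀ b ∈ Q, Inn Q (Ideal.span {t, u}) b) ∨
  ∃ q0 ∈ Q, ∃ q1 ∈ Q, ∃ q2 ∈ Q, q0 ≠ 0 ∧
    (∀ x : A, Inn Q (Ideal.span {q0}) (q1 * x) → Inn Q (Ideal.span {q0}) x) ∧
    ∀ x : A, Inn Q (Ideal.span {q0, q1}) (q2 * x) → Inn Q (Ideal.span {q0, q1}) x

end loc

end Pool.Agent.QS
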