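import Pool.Agent.helper51.QS.Defs

/-!
# Project qs (MP_74cfa5_ag): plt centres on quotients of smooth varieties. Part A

THEOREM B. `k` algebraically closed of characteristic `p`, `Y = Spec A` smooth of dimension `n`, `G` a finite group acting on `A` over `k`, étale in
codimension one, `R = A^G`, `(Spec R, S + B)` plt, `3 n (n - 1) < 2 p`. Then `S` is normal. The complete proof (10 steps) is in
`/team-store/MP_74cfa5_QS_proof.txt`.

Part A: coordinates and Taylor expansions at a closed point of a smooth variety, monomial valuations, the action of an automorphism of order `p`, and the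
descent of a valuation to the field of invariants.

RULES. Row `qs:XX`: prove `theorem XX (hYY : YY_stmt.{u}) ... : XX_stmt.{u}` (other rows only as hypotheses) in `Pool/Agent/<seat>/QS/XX.lean`,
`import Pool.Agent.helper51.QS.SpecA`, `namespace Pool.Agent.QS`, `universe u`, `open Pool.Agent.PC`, auxiliary lemmas with the prefix `XX_`. No double
quotes, no convert / congr!, no native_decide. One line to helper51 when DONE; doubts about a statement at once. Useful lemmas on `DVal` and `Ge`: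
`Pool/Agent/helper16/PC/CONR.lean` (`CON_...`), `Pool/Agent/helper13/PC/ASA.lean` (`ASA_v1, neg, inv, div, pow, zpow, Gadd, Gmul, Gsum, ASA_V`),
namespace `Pool.Agent.PC` (they may be imported).
-/

set_option autoImplicit false

namespace Pool.Agent.QS

open Pool.Agent.PC MvPolynomial

universe u

/-! ### coordinates -/

/-- **TRB** (medium). Noether normalisation: `A` is finite over a polynomial ring in `s` variables, `s = dim A = n` (dimension of an integral extension; compare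
`Pool/Agent/helper31/PC/DIM.lean`), and `K` is algebraic over its field of fractions. -/
def TRB_stmt : Prop := ∀ (k A K : Type u) [Field k] [CommRing A] [IsDomain A] [Algebra k A] [Algebra.FiniteType k A] [Field K] [Algebra k K]
  [Algebra A K] [IsScalarTower k A K] [IsFractionRing A K] (n : ℕ), ringKrullDim A = n → ∃ x : Fin n → K, IsTranscendenceBasis k x

/-- **KDI** (medium). `K` has a separating transcendence basis `s` (`exists_isTranscendenceBasis_and_isSeparable_of_perfectField`), `card s = n`; `k[s]` is a polynomial ring, so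
`Ω[k(s)⁄k]` is free with basis `ds`; `K` is separable algebraic over `k(s)`, so formally étale, and `Ω[K⁄k] = K ⊗ Ω[k(s)⁄k]` (compare `Pool/Agent/helper2/PC/TRF.lean`). -/
def KDI_stmt : Prop := ∀ (k K : Type u) [Field k] [IsAlgClosed k] [Field K] [Algebra k K] [Algebra.EssFiniteType k K] (n : ℕ) (x : Fin n → K),
  IsTranscendenceBasis k x → Module.Finite K (Ω[K⁄k]) ∧ Module.finrank K (Ω[K⁄k]) = n

/-- **CRE** (medium). Let `κ = A / m = k` (Nullstellensatz). `Ω = Ω[A⁄k]` is finite and projective (smooth), of constant rank (domain), equal to `dim_K Ω[K⁄k] = n` (`Ω[K⁄k] = K ⊗ Ω`), so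
`dim κ ⊗ Ω = n`. The map `m / m² → κ ⊗ Ω`, `b ↦ 1 ⊗ db`, is an isomorphism: surjective, as `db = d(b - b(m))`; injective, because `b ↦ b - b(m)` modulo `m²` is a derivation `A → m / m²` and gives
`κ ⊗ Ω → m / m²`. -/
def CRE_stmt : Prop := ∀ (k A K : Type u) [Field k] [IsAlgClosed k] [CommRing A] [IsDomain A] [Algebra k A] [Algebra.Smooth k A] [Field K] [Algebra k K]
  [Algebra A K] [IsScalarTower k A K] [IsFractionRing A K] (n : ℕ), Module.finrank K (Ω[K⁄k]) = n →
  ∀ m : Ideal A, m.IsMaximal → ∃ y : Fin n → A, Coord k m y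

/-- **DUA** (medium). `L = A_m`; `Ω[L⁄k] = L ⊗ Ω[A⁄k]` is free (finite projective over a local ring) of rank `n` (see CRE). The `dy_i` generate `κ ⊗ Ω[A⁄k]` (`A = k + m`, `m = ∑ k y_i + m²`, and `d(m²)` is `0` in
`κ ⊗ Ω`), so by Nakayama they generate `Ω[L⁄k]`, and `n` generators of a free module of rank `n` are a basis. The dual basis gives derivations `A → L`, and they extend to `K`
(`Ω[K⁄k] = K ⊗ Ω[L⁄k]`). -/
def DUA_stmt : Prop := ∀ (k A K : Type u) [Field k] [IsAlgClosed k] [CommRing A] [IsDomain A] [Algebra k A] [Algebra.Smooth k A] [Field K] [Algebra k K]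
  [Algebra A K] [IsScalarTower k A K] [IsFractionRing A K] (n : ℕ), Module.finrank K (Ω[K⁄k]) = n →
  ∀ m : Ideal A, m.IsMaximal → ∀ y : Fin n → A, Coord k m y → ∃ D : Fin n → Derivation k K K, Dual m y D

/-- **QRR** (medium). `π : A → k[T] / (T)²`, `a = c + b ↦ c + ∑ c_i T_i` if `c ∈ k`, `b ∈ m`, `b - ∑ c_i y_i ∈ m²`, is well defined and a ring homomorphism. `N ≤ 1` is clear; for `N ≥ 2` lift it to `ψ : A → k[T] / (T)^N`
(the kernel `(T)² / (T)^N` is nilpotent; `Algebra.FormallySmooth.liftOfSurjective`). `ψ (y_i) ∈ T_i + (T)²`, `ψ (m) ⊆ (T)`, so `ψ (m^N) = 0`. If `f` has the lowest form `f_d ≠ 0`, `d < N`, then `ψ (f(y)) = f (ψ y) ≡ f_d(T)`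
modulo `(T)^(d+1)`, so it is not `0`. -/
def QRR_stmt : Prop := ∀ (k A : Type u) [Field k] [CommRing A] [Algebra k A] [Algebra.FormallySmooth k A] (n : ℕ) (m : Ideal A), m ≠ ⊤ →
  (∀ a : A, ∃ c : k, a - algebraMap k A c ∈ m) → ∀ y : Fin n → A, Coord k m y → ∀ (N : ℕ) (f : MvPolynomial (Fin n) k),
  aeval y f ∈ m ^ N → ∀ α : Fin n →₀ ℕ, α.degree < N → coeff α f = 0

/-- **TAY** (medium). For all `a`, `N` there is a polynomial `f` with `a - f(y) ∈ m^N` (`A = k + m`, `m = ∑ k y_i + m²`, induction); its coefficients of degree `< N` do not depend on the choice of `f` (last hypothesis), nor on `N`. They are the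
coefficients of `φ a`. -/
def TAY_stmt : Prop := ∀ (k A : Type u) [Field k] [CommRing A] [Algebra k A] (n : ℕ) (m : Ideal A),
  (∀ a : A, ∃ c : k, a - algebraMap k A c ∈ m) → ∀ y : Fin n → A, Coord k m y →
  (∀ (N : ℕ) (f : MvPolynomial (Fin n) k), aeval y f ∈ m ^ N → ∀ α : Fin n →₀ ℕ, α.degree < N → coeff α f = 0) →
  ∃ φ : A →ₐ[k] MvPowerSeries (Fin n) k, Taylor m y φ

/-- **TDR** (medium). Let `f` be the truncation of `φ a` below degree `N`: `a = f(y) + a'`, `a' ∈ m^N`. `D_i a = (∂_i f)(y) + D_i a'` and `D_i a' = b' / s'` with `b' ∈ m^(N-1)`, `s' ∉ m` (product rule).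
So `b s' = s s' (∂_i f)(y) + s b'`. Apply `φ`; `φ s'` is a unit (its constant coefficient is not `0`, by Taylor for `N = 1`). So `φ b` and `φ s · ∂_i (φ a)` have the same coefficients of degree `< N - 1`. -/
def TDR_stmt : Prop := ∀ (k A K : Type u) [Field k] [CommRing A] [IsDomain A] [Algebra k A] [Field K] [Algebra k K] [Algebra A K] [IsScalarTower k A K]
  [IsFractionRing A K] (n : ℕ) (m : Ideal A) [m.IsMaximal] (y : Fin n → A) (φ : A →ₐ[k] MvPowerSeries (Fin n) k) (D : Fin n → Derivation k K K),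
  Taylor m y φ → Dual m y D → ∀ (i : Fin n) (a b s : A), s ∉ m → D i (algebraMap A K a) = algebraMap A K b / algebraMap A K s →
  φ b = φ s * MvPowerSeries.pderiv k i (φ a)

/-- **FFL** (short to medium). `φ b = ∑ u_j φ (x_j)`, `x_j ∈ J`. For `N` let `g_j` be the truncation of `u_j` below degree `N`: `b - ∑ g_j(y) x_j ∈ m^N` (Taylor). So `b ∈ J + m^N` for all `N`. Krull's intersection theorem in `A / J`: there is `r ∈ m` with
`(1 - r) b ∈ J`. -/
def FFL_stmt : Prop := ∀ (k A : Type u) [Field k] [CommRing A] [IsNoetherianRing A] [Algebra k A] (n : ℕ) (m : Ideal A) [m.IsMaximal] (y : Fin n → A)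
  (φ : A →ₐ[k] MvPowerSeries (Fin n) k), Taylor m y φ → ∀ (J : Ideal A) (b : A), φ b ∈ J.map φ → Inn m J b

/-- **PYY** (short to medium; from FFL). `𝔮 = φ⁻¹ (X_i : i < h)`. The ideal `(X_i : i < h)` of the power series ring is prime (it consists of the series whose coefficients at the monomials without `X_i`, `i < h`, vanish; or: it is the kernel of
setting `X_i = 0`). -/
def PYY_stmt : Prop := ∀ (k A : Type u) [Field k] [CommRing A] [IsNoetherianRing A] [Algebra k A] (n : ℕ) (m : Ideal A) [m.IsMaximal] (y : Fin n → A)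
  (φ : A →ₐ[k] MvPowerSeries (Fin n) k), Taylor m y φ → ∀ h : ℕ, ∃ 𝔮 : Ideal A, 𝔮.IsPrime ∧ 𝔮 ≤ m ∧
  (∀ a, a ∈ 𝔮 ↔ Inn m (Ideal.span {b | ∃ i : Fin n, (i : ℕ) < h ∧ b = y i}) a) ∧
  ∀ a, a ∈ 𝔮 ↔ ∀ α : Fin n →₀ ℕ, (∀ i : Fin n, (i : ℕ) < h → α i = 0) → MvPowerSeries.coeff α (φ a) = 0

/-! ### monomial valuations -/

/-- **WVL** (medium). `φ` is injective (Krull: `⋂ m^N = 0`). The weighted order of power series over a field is multiplicative (the initial forms; `MvPowerSeries.weightedHomogeneousComponent_mul_of_le_weightedOrder`, the ring has no zero divisors) and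
`wo (f + g) ≥ min`. `v (a / b) = wo (φ a) - wo (φ b)`. The value `1` is taken at `y_i`, or at `y_i / y_j`. -/
def WVL_stmt : Prop := ∀ (k A K : Type u) [Field k] [CommRing A] [IsDomain A] [IsNoetherianRing A] [Algebra k A] [Field K] [Algebra A K]
  [IsFractionRing A K] (n : ℕ) (m : Ideal A) [m.IsMaximal] (y : Fin n → A) (φ : A →ₐ[k] MvPowerSeries (Fin n) k), Taylor m y φ →
  ∀ w : Fin n → ℕ, ((∃ i, w i = 1) ∨ ∃ i j, w i = w j + 1) → ∃ v : K → ℤ, IsW φ w v

/-- **YWV** (short). Values of the coordinates, of the constants, of the elements of `A`, of the elements outside of `m`, of the elements of `m^N`. -/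
def YWV_stmt : Prop := ∀ (k A K : Type u) [Field k] [CommRing A] [IsDomain A] [Algebra k A] [Field K] [Algebra k K] [Algebra A K] [IsScalarTower k A K]
  [IsFractionRing A K] (n : ℕ) (m : Ideal A) [m.IsMaximal] (y : Fin n → A) (φ : A →ₐ[k] MvPowerSeries (Fin n) k), Taylor m y φ →
  ∀ (w : Fin n → ℕ) (v : K → ℤ), IsW φ w v →
  (∀ i, algebraMap A K (y i) ≠ 0 ∧ v (algebraMap A K (y i)) = w i) ∧ (∀ c : k, c ≠ 0 → v (algebraMap k K c) = 0) ∧
  (∀ a : A, Ge v 0 (algebraMap A K a)) ∧ (∀ a : A, a ∉ m → v (algebraMap A K a) = 0) ∧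
  ∀ (c : ℕ), (∀ i, c ≤ w i) → ∀ (N : ℕ) (a : A), a ∈ m ^ N → Ge v (c * N : ℕ) (algebraMap A K a)

/-- **WDR** (short to medium; from TDR). For `b ∈ A`: `D_i b = b' / s'`, `φ b' = φ s' · ∂_i (φ b)`, and `X_i ∂_i` does not decrease the weights of the monomials; `v s' = 0`. For `b = a / c`: quotient rule. -/
def WDR_stmt : Prop := ∀ (k A K : Type u) [Field k] [CommRing A] [IsDomain A] [Algebra k A] [Field K] [Algebra k K] [Algebra A K] [IsScalarTower k A K]
  [IsFractionRing A K] (n : ℕ) (m : Ideal A) [m.IsMaximal] (y : Fin n → A) (φ : A →ₐ[k] MvPowerSeries (Fin n) k) (D : Fin n → Derivation k K K),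
  Taylor m y φ → Dual m y D → ∀ (w : Fin n → ℕ) (v : K → ℤ), IsW φ w v → ∀ (i : Fin n) (b : K) (r : ℤ), Ge v r b →
  Ge v r (algebraMap A K (y i) * D i b)

/-- **WLG** (short). `JJ D f / ∏ f_i = det (y_j D_j f_i / f_i) / ∏ y_j`. -/
def WLG_stmt : Prop := ∀ (k K : Type u) [Field k] [Field K] [Algebra k K] (n : ℕ) (v : K → ℤ) (D : Fin n → Derivation k K K) (y : Fin n → K)
  (w : Fin n → ℤ), DVal v → (∀ i, y i ≠ 0 ∧ v (y i) = w i) → (∀ (i : Fin n) (b : K) (r : ℤ), Ge v r b → Ge v r (y i * D i b)) →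
  ∀ f : Fin n → K, (∀ i, f i ≠ 0) → Ge v (-∑ i, w i) (JJ D f / ∏ i, f i)

/-- **WTR** (medium). `z_i = y_i ^ (w_0) / y_0 ^ (w_i)` for `i ≠ i0` (`0` stands for `i0`). If `Q ≠ 0` and `N` is large, `y_0 ^ N Q(z)` is the value at `y` of a polynomial with nonzero coefficients at different monomials, all of weight `w_0 N`, so its value is `w_0 N`. -/
def WTR_stmt : Prop := ∀ (k A K : Type u) [Field k] [CommRing A] [IsDomain A] [Algebra k A] [Field K] [Algebra k K] [Algebra A K] [IsScalarTower k A K]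
  [IsFractionRing A K] (n : ℕ) (m : Ideal A) (y : Fin n → A) (φ : A →ₐ[k] MvPowerSeries (Fin n) k), Taylor m y φ →
  ∀ (w : Fin n → ℕ) (v : K → ℤ), IsW φ w v → (∃ i, 0 < w i) →
  ∃ a : Fin (n - 1) → K, ∀ Q : MvPolynomial (Fin (n - 1)) k, Q ≠ 0 → aeval a Q ≠ 0 ∧ v (aeval a Q) = 0

/-- **WCT** (short to medium; from FFL). `v a ≥ 1` iff all monomials of `φ a` contain some `X_i` with `w_i > 0`, iff `φ a ∈ (X_i : w_i > 0)`. -/
def WCT_stmt : Prop := ∀ (k A K : Type u) [Field k] [CommRing A] [IsDomain A] [IsNoetherianRing A] [Algebra k A] [Field K] [Algebra A K]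
  [IsFractionRing A K] (n : ℕ) (m : Ideal A) [m.IsMaximal] (y : Fin n → A) (φ : A →ₐ[k] MvPowerSeries (Fin n) k), Taylor m y φ →
  ∀ (w : Fin n → ℕ) (v : K → ℤ), IsW φ w v → ∀ a : A,
  Ge v 1 (algebraMap A K a) ↔ Inn m (Ideal.span {b | ∃ i, 0 < w i ∧ b = y i}) a

/-! ### an automorphism of order p -/

/-- **WSG** (medium). For monomials in `y`: `s (a b) - a b = (s a - a) s b + a (s b - b)` and induction. For `b ∈ A`, `Ge v r b`: let `f` be the truncation of `φ b` below degree `N`, `N ≥ r + j`; the monomials of `f` have weight `≥ r`, `b - f(y) = b' ∈ m^N`, `σ b' - b' ∈ m^N` has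
value `≥ N` (all weights are `≥ 1`). So `v (s b - b) ≥ v b + j` for `b ∈ A`; as `j ≥ 1`, `v (s b) = v b`; for `b = a / c`: `s b - b = (c (s a - a) - a (s c - c)) / (c s c)`. -/
def WSG_stmt : Prop := ∀ (k A K : Type u) [Field k] [CommRing A] [IsDomain A] [Algebra k A] [Field K] [Algebra A K]
  [IsFractionRing A K] (n : ℕ) (m : Ideal A) [m.IsMaximal] (y : Fin n → A) (φ : A →ₐ[k] MvPowerSeries (Fin n) k), Taylor m y φ →
  ∀ (w : Fin n → ℕ) (v : K → ℤ), IsW φ w v → (∀ i, 1 ≤ w i) → ∀ (σ : A →ₐ[k] A) (s : K →+* K),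
  (∀ a, s (algebraMap A K a) = algebraMap A K (σ a)) → (∀ a ∈ m, σ a ∈ m) → ∀ j : ℤ, 1 ≤ j →
  (∀ i, Ge v (w i + j) (algebraMap A K (σ (y i) - y i))) → ∀ (r : ℤ) (b : K), Ge v r b → Ge v (r + j) (s b - b)

/-- **FLG** (medium). `σ` acts on `V = m / m²` (dimension `n`), `N = σ - 1` satisfies `N^p = σ^p - 1 = 0`. By induction on the dimension a nilpotent operator has a basis `b_1, ..., b_n` with `N b_i` in the span of the `b_l`, `l > i`: `N V ≠ V`, choose a
hyperplane `H ⊇ N V` and `b_1 ∉ H`. -/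
def FLG_stmt : Prop := ∀ (k A : Type u) [Field k] [CommRing A] [Algebra k A] (n p : ℕ) [Fact p.Prime] [CharP k p] (m : Ideal A) (σ : A →ₐ[k] A),
  (∀ a ∈ m, σ a ∈ m) → (∀ a, σ^[p] a = a) → (∃ y : Fin n → A, Coord k m y) →
  ∃ y : Fin n → A, Coord k m y ∧ ∀ i, ∃ c : Fin n → k, (∀ l, l ≤ i → c l = 0) ∧ σ (y i) - y i - ∑ l, c l • y l ∈ m ^ 2

/-- **JMX** (medium). `v (σ y_i - y_i) ≥ w_i + 1`: `y_l` has the value `w_l ≥ w_i + 1` for `l > i`, and `m²` has values `≥ 2 n ≥ w_i + 1`. If all `σ y_i = y_i` then `σ b - b ∈ m^N` for all `b`, `N` (`b ≡ f(y)` modulo `m^N`), so `σ = 1` (Krull). So take the minimum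
`j` of the `v (σ y_i - y_i) - w_i`. -/
def JMX_stmt : Prop := ∀ (k A K : Type u) [Field k] [CommRing A] [IsDomain A] [IsNoetherianRing A] [Algebra k A] [Field K] [Algebra A K]
  [IsFractionRing A K] (n : ℕ) (m : Ideal A) [m.IsMaximal] (y : Fin n → A) (φ : A →ₐ[k] MvPowerSeries (Fin n) k), Taylor m y φ →
  ∀ (w : Fin n → ℕ) (v : K → ℤ), (∀ i, w i = n + i) → IsW φ w v → ∀ (σ : A →ₐ[k] A), (∀ a ∈ m, σ a ∈ m) →
  (∀ i, ∃ c : Fin n → k, (∀ l, l ≤ i → c l = 0) ∧ σ (y i) - y i - ∑ l, c l • y l ∈ m ^ 2) → (∃ a, σ a ≠ a) →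
  ∃ j : ℤ, 1 ≤ j ∧ (∀ i, Ge v (w i + j) (algebraMap A K (σ (y i) - y i))) ∧
    ∃ i, σ (y i) - y i ≠ 0 ∧ v (algebraMap A K (σ (y i) - y i)) = w i + j

/-- **LDR** (medium). `L a = - ∑_{i=1}^{p-1} i⁻¹ s^i a`. With `N = s - 1`, `s^i a = ∑_{m<p} (i choose m) N^m a` for `0 ≤ i < p`, and `N^m` increases the value by `m j`. `L (a b) = - ∑_{m,l} (∑_i i⁻¹ (i choose m)(i choose l)) N^m a N^l b`. For `m, l ≥ 1`, `m + l < p`, the coefficient is
`0`: `q(t) = (t choose m)(t choose l) / t` is a polynomial over `𝔽_p` of degree `≤ p - 2` with `q(0) = 0`, and `∑_{i ∈ 𝔽_p} q(i) = 0`. The terms with `l = 0` or `m = 0` are `b L a` and `a L b` (the term `m = l = 0` has the coefficient `- ∑ i⁻¹ = 0`, `p > 2`). The coefficient of `N a` in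
`L a` is `- (p - 1) = 1`. If `s c = c` then `L c = - (∑ i⁻¹) c = 0`. -/
def LDR_stmt : Prop := ∀ (K : Type u) [Field K] (p : ℕ) [Fact p.Prime] [CharP K p], 2 < p → ∀ (s : K →+* K) (v : K → ℤ), DVal v →
  (∀ y, s^[p] y = y) → ∀ j : ℤ, 1 ≤ j → (∀ (r : ℤ) (y : K), Ge v r y → Ge v (r + j) (s y - y)) →
  ∃ L : K → K, (∀ a b, L (a + b) = L a + L b) ∧ (∀ c a, s c = c → L (c * a) = c * L a) ∧ (∀ c, s c = c → L c = 0) ∧
    (∀ (r r' : ℤ) (a b : K), Ge v r a → Ge v r' b → Ge v (r + r' + p * j) (L (a * b) - a * L b - b * L a)) ∧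
    ∀ (r : ℤ) (a : K), Ge v r a → Ge v (r + 2 * j) (L a - (s a - a))

/-- **LMO** (medium). `Λ b = ∑ L(y_i) D_i b` is a derivation with `Λ y_i = L y_i`. For monomials `M` in `y`: `v (L M - Λ M) ≥ (weight of M) + p j` by induction on the degree (`L 1 - Λ 1 = L 1` has value `≥ p j` by the product property with `a = b = 1`). For `b ∈ A`, `Ge v r b`: `b = f(y) + b'`, `b' ∈ m^N`,
`N ≥ r + p j`, the monomials of `f` have weights `≥ r`; `L b'` and `Λ b'` have values `≥ N` (`v (L y_i) ≥ w_i`, `v (y_i D_i b') ≥ v b'`). For `b = a / c`: the product property for `(a / c) c`. -/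
def LMO_stmt : Prop := ∀ (k A K : Type u) [Field k] [CommRing A] [IsDomain A] [Algebra k A] [Field K] [Algebra k K] [Algebra A K] [IsScalarTower k A K]
  [IsFractionRing A K] (n p : ℕ) (m : Ideal A) [m.IsMaximal] (y : Fin n → A) (φ : A →ₐ[k] MvPowerSeries (Fin n) k) (D : Fin n → Derivation k K K),
  Taylor m y φ → Dual m y D → ∀ (w : Fin n → ℕ) (v : K → ℤ), IsW φ w v → (∀ i, 1 ≤ w i) →
  (∀ (i : Fin n) (b : K) (r : ℤ), Ge v r b → Ge v r (algebraMap A K (y i) * D i b)) → ∀ j : ℤ, 0 ≤ j →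
  ∀ L : K → K, (∀ a b, L (a + b) = L a + L b) → (∀ (c : k) (a : K), L (algebraMap k K c * a) = algebraMap k K c * L a) →
  (∀ (r : ℤ) (a : K), Ge v r a → Ge v r (L a)) →
  (∀ (r r' : ℤ) (a b : K), Ge v r a → Ge v r' b → Ge v (r + r' + p * j) (L (a * b) - a * L b - b * L a)) →
  ∀ (r : ℤ) (b : K), Ge v r b → Ge v (r + p * j) (L b - ∑ i, L (algebraMap A K (y i)) * D i b)

/-- **DET** (short). Cramer: `det M · ℓ_{i0}` is the determinant of `M` with the column `i0` replaced by `M ℓ`. -/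
def DET_stmt : Prop := ∀ (K : Type u) [Field K] (v : K → ℤ), DVal v → ∀ (n : ℕ) (M : Matrix (Fin n) (Fin n) K) (ℓ : Fin n → K) (e j : ℤ) (i0 : Fin n),
  (∀ i l, Ge v 0 (M i l)) → (∀ i, Ge v e (∑ l, M i l * ℓ l)) → ℓ i0 ≠ 0 → v (ℓ i0) = j → Ge v (e - j) M.det

/-- **SGB** (medium; from YWV, WDR, WSG, JMX, LDR, LMO, DET). `j` from JMX, `L` from LDR (`s` fixes `k`; the property WSG). `M_il = y_l D_l f_i / f_i` has values `≥ 0` (WDR), `ℓ_l = L(y_l) / y_l`; `L f_i = 0`, so `v (∑_l M_il ℓ_l) ≥ p j` (LMO). `v (ℓ_i) = j` for the `i` of JMX, because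
`v (L y_i - (s y_i - y_i)) ≥ w_i + 2 j`. So `v (det M) ≥ p j - j ≥ p - 1`, and `JJ D f / ∏ f_i = det M / ∏ y_l`. -/
def SGB_stmt : Prop := ∀ (k A K : Type u) [Field k] [CommRing A] [IsDomain A] [IsNoetherianRing A] [Algebra k A] [Field K] [Algebra k K] [Algebra A K]
  [IsScalarTower k A K] [IsFractionRing A K] (n p : ℕ) [Fact p.Prime] [CharP k p], 2 < p → ∀ (m : Ideal A) [m.IsMaximal] (y : Fin n → A)
  (φ : A →ₐ[k] MvPowerSeries (Fin n) k) (D : Fin n → Derivation k K K), Taylor m y φ → Dual m y D →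
  ∀ (w : Fin n → ℕ) (v : K → ℤ), (∀ i, w i = n + i) → IsW φ w v → ∀ (σ : A →ₐ[k] A) (s : K →+* K),
  (∀ a, s (algebraMap A K a) = algebraMap A K (σ a)) → (∀ a ∈ m, σ a ∈ m) → (∀ a, σ^[p] a = a) → (∃ a, σ a ≠ a) →
  (∀ i, ∃ c : Fin n → k, (∀ l, l ≤ i → c l = 0) ∧ σ (y i) - y i - ∑ l, c l • y l ∈ m ^ 2) →
  ∀ f : Fin n → K, (∀ i, f i ≠ 0 ∧ s (f i) = f i) → Ge v ((p : ℤ) - 1 - ∑ i, (w i : ℤ)) (JJ D f / ∏ i, f i)

/-! ### descent to the field of invariants -/

/-- **PSI** (medium to long). As TRF of Theorem A (`Pool/Agent/helper2/PC/TRF.lean`): the alternating map `(df_1, ..., df_n) ↦ JJ D (f)` on `Ω[F⁄k]` defines `Ψ`. `K ⊗_F Ω[F⁄k] = Ω[K⁄k]` (`K / F` finite separable), of dimension `n`, and the `dy_i` are a basis of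
`Ω[K⁄k]` (the `D_i` give dual functionals; if `n = 0` everything is trivial: the determinant of the empty matrix is `1`), so `dim_F Ω[F⁄k] = n`, `⋀^n` has dimension `1`, and `Ψ ≠ 0` because the `JJ D f`, `f_i ∈ F`, generate the same `K`-space as the
`JJ D f`, `f_i ∈ K`, which contains `JJ D y = 1`. -/
def PSI_stmt : Prop := ∀ (k F K : Type u) [Field k] [Field F] [Field K] [Algebra k F] [Algebra k K] [Algebra F K] [IsScalarTower k F K]
  [FiniteDimensional F K] [Algebra.IsSeparable F K] (n : ℕ) (D : Fin n → Derivation k K K) (y : Fin n → K),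
  (∀ i j, D i (y j) = if i = j then 1 else 0) → Module.finrank K (Ω[K⁄k]) = n → ∃ Ψ : Form k F n →ₗ[F] K, IsPsi D Ψ

/-- **VBD** (medium). There is `P ≠ 0` with `Ge v 1 (P(a))`: otherwise all `P(a)`, `P ≠ 0`, have the value `0`; then `a` is a transcendence basis of `F` over `k` (algebraically independent, `n` elements), `K` is algebraic over `k(a)`, on which `v = 0`, so `v = 0` on `K` (coefficients of a polynomial
equation), a contradiction. Take such a `P` of minimal total degree; as `k` is perfect and `P` is not a `p`-th power (of a polynomial, which would be of smaller degree), some `∂P/∂T_i ≠ 0`, and `v ((∂P/∂T_i)(a)) = 0` by minimality. `(∂P/∂T_i)(a) JJ D (a) = JJ D (a_1, .., P(a), .., a_n)` (at the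
place `i`), as `D P(a) = ∑ (∂P/∂T_l)(a) D a_l`. If `P(a) = 0` or some `a_l = 0` this is `0` (for `a_l = 0`, `JJ D a = 0` at once); otherwise it is `P(a) ∏_{l ≠ i} a_l` times a logarithmic Jacobian, of value `≥ e + 0 + c`. -/
def VBD_stmt : Prop := ∀ (k F K : Type u) [Field k] [IsAlgClosed k] [Field F] [Field K] [Algebra k F] [Algebra k K] [Algebra F K] [IsScalarTower k F K]
  [Algebra.IsAlgebraic F K] (n p : ℕ) [Fact p.Prime] [CharP k p] (x : Fin n → F), IsTranscendenceBasis k x → ∀ (D : Fin n → Derivation k K K)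
  (v : K → ℤ), DVal v → (∀ c : k, c ≠ 0 → v (algebraMap k K c) = 0) → ∀ c : ℤ, LogGe F v D c → ∀ e : ℤ,
  (∀ x : F, x ≠ 0 → 0 < v (algebraMap F K x) → e ≤ v (algebraMap F K x)) →
  ∀ a : Fin n → F, (∀ i, Ge v 0 (algebraMap F K (a i))) → Ge v (e + c) (JJ D fun i => algebraMap F K (a i))

/-- **DVF** (medium). `v ≠ 0` on `F` (as in VBD); `O = {x ∈ F : v x ≥ 0}`, the values of `F*` are `v(w) ℤ`. Residues: the residue field `κ` of `v` is algebraic over that of `O` (an equation `∑ c_i b^i = 0` with `c_i ∈ F` can be normalised to `min v (c_i) = 0`), and contains `n - 1`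
algebraically independent elements; so does the residue field of `O` (transcendence basis), lift them. (`O.valuation x = 1` iff `v x = 0` for `x ≠ 0`.) -/
def DVF_stmt : Prop := ∀ (k F K : Type u) [Field k] [Field F] [Field K] [Algebra k F] [Algebra k K] [Algebra F K] [IsScalarTower k F K]
  [Algebra.IsAlgebraic F K] (n : ℕ) (v : K → ℤ), DVal v → (∀ c : k, c ≠ 0 → v (algebraMap k K c) = 0) →
  (∃ a : Fin (n - 1) → K, ∀ Q : MvPolynomial (Fin (n - 1)) k, Q ≠ 0 → aeval a Q ≠ 0 ∧ v (aeval a Q) = 0) →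
  ∃ (O : ValuationSubring F) (w : F), Restr v O w ∧ Divisorial k n O

/-- **DIS** (medium; from VBD). `e = v (w)` (`w` the uniformizer; all uniformizers have this value, by `Restr` with `t = 1`), `v g = t e`. `ω = π^s ξ`, `ξ ∈ Reg O`, `v (Ψ ξ) ≥ e + c` (VBD and induction over the closure), so `v (Ψ ω) ≥ s e + e + c`. `-1 < s - t / μ` gives `t < μ (s + 1)`, so
`v g = t e < μ (s + 1) e ≤ μ v (Ψ ω) - μ c`. -/
def DIS_stmt : Prop := ∀ (k F K : Type u) [Field k] [IsAlgClosed k] [Field F] [Field K] [Algebra k F] [Algebra k K] [Algebra F K] [IsScalarTower k F K]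
  [Algebra.IsAlgebraic F K] (n p : ℕ) [Fact p.Prime] [CharP k p] (x : Fin n → F), IsTranscendenceBasis k x → ∀ (D : Fin n → Derivation k K K)
  (Ψ : Form k F n →ₗ[F] K), IsPsi D Ψ → ∀ v : K → ℤ, DVal v → (∀ c : k, c ≠ 0 → v (algebraMap k K c) = 0) →
  ∀ (O : ValuationSubring F) (w : F), Restr v O w → ∀ c : ℤ, LogGe F v D c → ∀ (ω : Form k F n) (g : F) (μ : ℕ) (s t : ℤ),
  ω ≠ 0 → g ≠ 0 → 0 < μ → OrdGe O ω s → HasOrd O g t → (-1 : ℚ) < (s : ℚ) - (t : ℚ) / μ →
  v (algebraMap F K g) - μ * v (Ψ ω) < -c * μ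

end Pool.Agent.QS
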