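import Pool.Agent.helper51.QS.SpecA
import Pool.Agent.helper51.PC.Pair

/-!
# Project qs (MP_74cfa5_ag), part B: codimension one, factoriality, the wild case, general points, normality

See the header of `SpecA.lean` (rules, theorem, proof). Rows of this file: `import Pool.Agent.helper51.QS.SpecB`. The definitions `Boundary`, `CartierAt`,
`DiscrAt`, `IsPlt` are in `Pool/Agent/helper51/PC/Pair.lean`.
-/

set_option autoImplicit false

namespace Pool.Agent.QS

open Pool.Agent.PC MvPolynomial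

universe u

/-! ### codimension one -/

/-- **SPN** (short). For `g ≠ 1` the set of the `b` with `g b - b ∈ Q` is a `k`-subspace of `A`, not everything; an infinite field: a vector space is not a finite union of proper subspaces (`Subspace.biUnion_ne_univ_of_top_notMem` or similar). -/
def SPN_stmt : Prop := ∀ (k A G : Type u) [Field k] [Infinite k] [CommRing A] [Algebra k A] [Group G] [Finite G] [MulSemiringAction G A] [SMulCommClass G k A]
  (Q : Ideal A), (∀ g : G, g ≠ 1 → ∃ a : A, g • a - a ∉ Q) → ∃ b : A, ∀ g : G, g ≠ 1 → g • b - b ∉ Q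

/-- **ETC** (medium). `f(T) = ∏_g (T - g b)` has coefficients `c_m` in `R` (invariants). `f'(b) = ∏_{g ≠ 1} (b - g b) ∉ Q`, and `D(f(b)) = 0` gives `f'(b) D b = - ∑ b^m D c_m`. For `a ∈ A` let `h(T) = ∑_g g(a) ∏_{g' ≠ g} (T - g' b)`, an invariant polynomial, with coefficients `r_m` in `R`; `h(b) = a f'(b)`. So
`a = h(b) / f'(b)` and `D a = D(h(b)) / f'(b) - a D(f'(b)) / f'(b)`, `D(h(b)) = ∑ b^m D r_m + h'(b) D b`, `D(f'(b)) = ∑ m b^(m-1) D c_m + f''(b) D b`. -/
def ETC_stmt : Prop := ∀ (k R A K G : Type u) [Field k] [CommRing R] [CommRing A] [IsDomain A] [Algebra k A] [Algebra R A] [Field K] [Algebra k K]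
  [Algebra A K] [IsScalarTower k A K] [IsFractionRing A K] [Group G] [Finite G] [MulSemiringAction G A] [SMulCommClass G R A] [Algebra.IsInvariant R A G]
  (Q : Ideal A), Q.IsPrime → ∀ b : A, (∀ g : G, g ≠ 1 → g • b - b ∉ Q) → ∀ a : A, ∃ (N : ℕ) (o : Fin N → K) (r : Fin N → R),
  (∀ i, ∃ x s : A, s ∉ Q ∧ o i = algebraMap A K x / algebraMap A K s) ∧
  ∀ D : Derivation k K K, D (algebraMap A K a) = ∑ i, o i * D (algebraMap A K (algebraMap R A (r i)))

/-- **ETJ** (medium; from SPN, ETC). Expand the determinant multilinearly in the rows `D y_i` (as in ETA of Theorem A, `Pool/Agent/helper90/PC/ETA.lean`). -/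
def ETJ_stmt : Prop := ∀ (k R A K G : Type u) [Field k] [Infinite k] [CommRing R] [CommRing A] [IsDomain A] [Algebra k A] [Algebra R A] [Field K] [Algebra k K]
  [Algebra A K] [IsScalarTower k A K] [IsFractionRing A K] [Group G] [Finite G] [MulSemiringAction G A] [SMulCommClass G k A] [SMulCommClass G R A]
  [Algebra.IsInvariant R A G] (Q : Ideal A), Q.IsPrime → (∀ g : G, g ≠ 1 → ∃ a : A, g • a - a ∉ Q) → ∀ (n : ℕ) (D : Fin n → Derivation k K K) (y : Fin n → A),
  (JJ D fun i => algebraMap A K (y i)) ∈ AddSubgroup.closure {z | ∃ o : K, (∃ x s : A, s ∉ Q ∧ o = algebraMap A K x / algebraMap A K s) ∧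
    ∃ c : Fin n → R, z = o * JJ D fun l => algebraMap A K (algebraMap R A (c l))}

/-- **LVQ** (short to medium). The localisation `A_Q` is a discrete valuation ring (compare `Pool/Agent/helper16/PC/LDV.lean`); `v` is its normalised valuation on `K`. -/
def LVQ_stmt : Prop := ∀ (A K : Type u) [CommRing A] [IsDomain A] [IsNoetherianRing A] [IsIntegrallyClosed A] [Field K] [Algebra A K] [IsFractionRing A K]
  (Q : Ideal A), Q.IsPrime → Q.height = 1 → ∃ v : K → ℤ, LocV Q v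

/-- **LRF** (medium). `R_P` is a discrete valuation ring `O` of `F` (see LDV of Theorem A: `Pool/Agent/helper16/PC/LDV.lean`), `w` a uniformizer. `v ≥ 0` on `R_P` (`s ∉ P` implies `s ∉ Q`, `v s = 0`), and `v w > 0` (`w` is in the maximal ideal; write it with `a ∈ P`, so `a ∈ Q`). So for `x = u w^t`, `u` a unit of `O`, `v x = t v(w)`. -/
def LRF_stmt : Prop := ∀ (R A F K : Type u) [CommRing R] [IsDomain R] [IsNoetherianRing R] [IsIntegrallyClosed R] [CommRing A] [IsDomain A] [Algebra R A] [Field F]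
  [Field K] [Algebra R F] [IsFractionRing R F] [Algebra A K] [IsFractionRing A K] [Algebra F K] [Algebra R K] [IsScalarTower R A K] [IsScalarTower R F K]
  (Q : Ideal A) (P : Ideal R), Q.IsPrime → P = Q.comap (algebraMap R A) → P.height = 1 → ∀ v : K → ℤ, LocV Q v →
  ∃ (O : ValuationSubring F) (w : F), IsLocAt P O ∧ Restr v O w

/-- **EHQ** (medium). Let `e = v(w) ≥ 1`, `h = Ψ ω`. `1 = ∑ o_i JJ D (c_i) = ∑ o_i Ψ(ξ_i)`, `ξ_i = dd c_i ∈ Reg O`, `ξ_i = x_i ω`, so `1 = ∑ o_i x_i h` and some `i` has `x_i ≠ 0`, `v(x_i h) ≤ 0`. If `v(h) > e s` then `v(x_i) < - e s`, `ord_O (x_i) = v(x_i) / e ≤ - s - 1`, and `ω = x_i⁻¹ ξ_i` would have order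
`≥ s + 1`, against OrdEq. So `v(h) ≤ e s`; `v(g) = e t`, `v(g) - μ v(h) ≥ e (t - μ s) = e μ β ≥ μ b` (`β ≥ 0`, `e ≥ 1`, `β ≥ b`). -/
def EHQ_stmt : Prop := ∀ (k F K : Type u) [Field k] [Field F] [Field K] [Algebra k F] [Algebra k K] [Algebra F K] [IsScalarTower k F K] (n : ℕ)
  (D : Fin n → Derivation k K K) (Ψ : Form k F n →ₗ[F] K), IsPsi D Ψ → ∀ v : K → ℤ, DVal v → ∀ (O : ValuationSubring F) (w : F), Restr v O w →
  (1 : K) ∈ AddSubgroup.closure {z | ∃ o : K, Ge v 0 o ∧ ∃ c : Fin n → F, (∀ i, c i ∈ O) ∧ z = o * JJ D fun l => algebraMap F K (c l)} →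
  ∀ (ω : Form k F n) (g : F) (μ : ℕ) (s t b : ℤ) (β : ℚ), ω ≠ 0 → g ≠ 0 → 0 < μ → OrdEq O ω s → HasOrd O g t → (μ : ℚ) * ((s : ℚ) + β) = t →
  0 ≤ β → (b : ℚ) ≤ β → (μ : ℤ) * b ≤ v (algebraMap F K g) - μ * v (Ψ ω)

/-- **HTP** (medium). `A / R` is integral, incomparability and going up hold, and the primes over `P` are conjugate under `G` (`Algebra.IsInvariant`, `Mathlib/RingTheory/Invariant/Basic.lean`), so going down holds. First part: `Q ∩ R ≠ 0`, and `0 < P_1 < Q ∩ R` would give `0 < Q_1 < Q`. Second part: `Q` over `S` below `m` (going down, or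
conjugate); its height is `1` (incomparability; `0 < Q_1 < Q` would give `0 < Q_1 ∩ R < S`). -/
def HTP_stmt : Prop := ∀ (R A G : Type u) [CommRing R] [IsDomain R] [CommRing A] [IsDomain A] [Algebra R A] [FaithfulSMul R A] [Group G] [Finite G]
  [MulSemiringAction G A] [SMulCommClass G R A] [Algebra.IsInvariant R A G],
  (∀ Q : Ideal A, Q.IsPrime → Q.height = 1 → (Q.comap (algebraMap R A)).height = 1) ∧
  ∀ (S : Ideal R) (m : Ideal A), S.IsPrime → S.height = 1 → m.IsPrime → S ≤ m.comap (algebraMap R A) →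
    ∃ Q : Ideal A, Q.IsPrime ∧ Q ≤ m ∧ Q.height = 1 ∧ Q.comap (algebraMap R A) = S

/-- **RAD** (short to medium; from HTP). Minimal primes of `I` are the minimal primes `Q` of `S A`; by HTP there is `Q' ≤ Q` of height `1` over `S`, so `Q = Q'`. Second part: `s x ∈ Q`, `s ∉ Q` for all minimal `Q`, so `x ∈ ⋂ Q = I`. Third part: lying over. -/
def RAD_stmt : Prop := ∀ (R A G : Type u) [CommRing R] [IsDomain R] [CommRing A] [IsDomain A] [Algebra R A] [FaithfulSMul R A] [Group G] [Finite G]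
  [MulSemiringAction G A] [SMulCommClass G R A] [Algebra.IsInvariant R A G] (S : Ideal R), S.IsPrime → S.height = 1 →
  (∀ Q ∈ (S.map (algebraMap R A)).radical.minimalPrimes, Q.height = 1 ∧ Q.comap (algebraMap R A) = S) ∧
  (∀ s : R, s ∉ S → ∀ x : A, algebraMap R A s * x ∈ (S.map (algebraMap R A)).radical → x ∈ (S.map (algebraMap R A)).radical) ∧
  ∀ r : R, algebraMap R A r ∈ (S.map (algebraMap R A)).radical → r ∈ S

/-- **GHM** (medium; from SPN, ETC, ETJ, LRF, EHQ, HTP). `P = Q ∩ R` has height `1` (HTP), `P ≤ M`; `O`, `w` from LRF; `1 = JJ D y` is a combination of the `JJ D c`, `c_i ∈ R ⊆ O` (ETJ; `Infinite k`). CartierAt at `P`, `O`, and EHQ with `β = [P = S] + B P`, `b = 0`, or `b = 1` if `S ≤ P` (then `S = P`, as both have height `1`). -/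
def GHM_stmt : Prop := ∀ (k R A F K G : Type u) [Field k] [IsAlgClosed k] [CommRing R] [IsDomain R] [CommRing A] [IsDomain A] [Algebra k R] [Algebra k A]
  [Algebra R A] [IsScalarTower k R A] [FaithfulSMul R A] [Field F] [Field K] [Algebra k F] [Algebra k K] [Algebra R F] [IsFractionRing R F] [Algebra A K]
  [IsFractionRing A K] [Algebra F K] [Algebra R K] [IsScalarTower k R F] [IsScalarTower k A K] [IsScalarTower k F K] [IsScalarTower R A K]
  [IsScalarTower R F K] [Group G] [Finite G] [MulSemiringAction G A] [SMulCommClass G k A] [SMulCommClass G R A] [Algebra.IsInvariant R A G]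
  [IsNoetherianRing R] [IsIntegrallyClosed R] (n : ℕ) (D : Fin n → Derivation k K K) (y : Fin n → A),
  (∀ i j, D i (algebraMap A K (y j)) = if i = j then 1 else 0) → ∀ Ψ : Form k F n →ₗ[F] K, IsPsi D Ψ →
  (∀ g : G, g ≠ 1 → ∀ Q : Ideal A, Q.IsPrime → Q.height = 1 → ∃ a : A, g • a - a ∉ Q) →
  ∀ (S : Ideal R) (B : Ideal R → ℚ) (ω : Form k F n) (μ : ℕ) (g : F), ω ≠ 0 → g ≠ 0 → 0 < μ → Boundary S B →
  ∀ m : Ideal A, m.IsMaximal → CartierAt S B ω μ (m.comap (algebraMap R A)) g →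
  ∀ (Q : Ideal A) (v : K → ℤ), Q.IsPrime → Q.height = 1 → Q ≤ m → LocV Q v →
  0 ≤ v (algebraMap F K g / Ψ ω ^ μ) ∧ (S ≤ Q.comap (algebraMap R A) → (μ : ℤ) ≤ v (algebraMap F K g / Ψ ω ^ μ))

/-! ### factoriality and the local equation -/

/-- **PS1** (medium). Weierstrass preparation (`Mathlib/RingTheory/PowerSeries/WeierstrassPreparation.lean`): `f = P h`, `P` a distinguished polynomial, `h` a unit. `B[X]` is factorial: `P = ∏ P_i`, `P_i` prime in `B[X]`, the leading coefficients are units, so after scaling the `P_i` are monic, and distinguished (modulo the maximal ideal `∏ P_i = X^n`).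
`B[[X]] / (P_i) = B[X] / (P_i)` (`Polynomial.IsDistinguishedAt.algEquivQuotient`), a domain, so `P_i` is prime in `B[[X]]`. -/
def PS1_stmt : Prop := ∀ (B : Type u) [CommRing B] [IsDomain B] [IsLocalRing B] [IsNoetherianRing B] [IsAdicComplete (IsLocalRing.maximalIdeal B) B]
  [UniqueFactorizationMonoid B] (f : PowerSeries B), f.map (IsLocalRing.residue B) ≠ 0 →
  ∃ s : Multiset (PowerSeries B), (∀ a ∈ s, Prime a) ∧ Associated s.prod f

/-- **PS2** (medium). Let `f_d ≠ 0` be the initial form of `f` (degree `d`). There are `c_i ∈ k` with `f_d(1, c_1, ..., c_n) ≠ 0` (`f_d` is homogeneous and `k` infinite: `f_d(1, T_1, ..., T_n) ≠ 0`). `e` is the substitution `X_0 ↦ X_0`, `X_i ↦ X_i + c_i X_0` (`i > 0`), with the inverse `X_i ↦ X_i - c_i X_0` (`MvPowerSeries.subst`). The coefficient of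
`e f` at `X_0^d` is `f_d(1, c)`. -/
def PS2_stmt : Prop := ∀ (k : Type u) [Field k] [Infinite k] (n : ℕ) (f : MvPowerSeries (Fin (n + 1)) k), f ≠ 0 →
  ∃ (e : MvPowerSeries (Fin (n + 1)) k ≃+* MvPowerSeries (Fin (n + 1)) k) (d : ℕ), MvPowerSeries.coeff (Finsupp.single 0 d) (e f) ≠ 0

/-- **PS3** (medium). The power series ring is complete for the topology of its maximal ideal `m = (X_i)`: `m^N` consists of the series without terms of degree `< N` (finitely many variables). (Compare `MvPowerSeries.toAdicCompletionAlgEquiv`; the local ring instance exists.) -/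
def PS3_stmt : Prop := ∀ (k : Type u) [Field k] (n : ℕ), IsAdicComplete (IsLocalRing.maximalIdeal (MvPowerSeries (Fin n) k)) (MvPowerSeries (Fin n) k)

/-- **PSU** (short to medium; from PS1, PS2, PS3). Induction on `n`. For `f ≠ 0` in `n + 1` variables: `e f` from PS2, transported to `B[[X]]`, `B` the ring in `n` variables (`MvPowerSeries.finSuccEquiv`, `coeff_coeff_finSuccEquiv`), is not `0` modulo the maximal ideal of `B`; PS1. A domain in which every nonzero element is a product of primes is factorial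
(`UniqueFactorizationMonoid.of_exists_prime_factors`). -/
def PSU_stmt : Prop := ∀ (k : Type u) [Field k] [Infinite k] (n : ℕ), UniqueFactorizationMonoid (MvPowerSeries (Fin n) k)

/-- **UFL** (medium to long; from FFL). Let `L = A_m` (noetherian domain), `φ` extends to `L`. It is enough that every irreducible `x` of `L` is prime, and for this that all `(x : z) ⊆ L` (`x ≠ 0`) are principal: if `x ∣ z w`, `x ∤ z`, `(x : z) = (c)`, then `c ∣ x`, `c` is not a unit, so `(x : z) = (x) ∋ w`. We may take `x, z ∈ A`. In `k[[X]]`, factorial,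
`(φ x : φ z) = (γ)`, `γ ≠ 0`. Let `γ φ z = φ x δ`. For `N` let `c_N, d_N ∈ A` be polynomials in `y` congruent to `γ`, `δ` modulo degree `N`: `c_N z - x d_N ∈ m^N`. Artin - Rees in `L / x L` for the submodule generated by `z`: there is `c` with `m^N M ∩ z M ⊆ m^(N-c) z M`, so `c_N z = λ z` modulo `x L` with
`λ ∈ m^(N-c) L`, `a = c_N - λ ∈ (x : z)`, `φ a ≡ γ` modulo degree `N - c`. `φ a = γ ρ`; if `ρ` is not a unit then `γ (1 - ρ)` and so `γ` has no terms of degree `< N - c`, impossible for large `N`. So `φ a = γ ρ` with a unit `ρ`, and for `b ∈ (x : z)`: `φ b ∈ (γ) = (φ a)`, so `b ∈ a L` (FFL). -/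
def UFL_stmt : Prop := ∀ (k A : Type u) [Field k] [CommRing A] [IsDomain A] [IsNoetherianRing A] [Algebra k A] (n : ℕ) (m : Ideal A) [m.IsMaximal] (y : Fin n → A)
  (φ : A →ₐ[k] MvPowerSeries (Fin n) k), Taylor m y φ → UniqueFactorizationMonoid (MvPowerSeries (Fin n) k) →
  UniqueFactorizationMonoid (Localization.AtPrime m)

/-- **NRA** (short). `IsIntegrallyClosed` can be checked at the maximal ideals; a factorial domain is integrally closed. -/
def NRA_stmt : Prop := ∀ (A : Type u) [CommRing A] [IsDomain A], (∀ (m : Ideal A) [m.IsMaximal], UniqueFactorizationMonoid (Localization.AtPrime m)) →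
  IsIntegrallyClosed A

/-- **TEQ** (medium; from LVQ). `L = A_m`. Every prime `Q ≤ m` of height `1` is `Q L = (q)`, `q` a prime element (factorial), and `Q = q L ∩ A`; `v_Q` (LVQ) is the multiplicity of `q`. `t` = the product of the `q` of the minimal primes `Q ≤ m` of `I` (finitely many), times a unit of `L` such that `t ∈ A`, `t ∈ I`. `I L` is radical, the intersection of the `Q L`
(`b ∈ I` lies in all `Q`, so is divisible by all `q`, so by the product). Last part: `x = a / b` with `a, b ∈ L` coprime; if a prime `q` divides `b` then `v_Q x < 0` for `Q = q L ∩ A`; so `b` is a unit; `q^μ ∣ a` for all `q ∣ t`, so `t^μ ∣ a`. -/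
def TEQ_stmt : Prop := ∀ (A K : Type u) [CommRing A] [IsDomain A] [IsNoetherianRing A] [IsIntegrallyClosed A] [Field K] [Algebra A K] [IsFractionRing A K]
  (m : Ideal A) [m.IsMaximal], UniqueFactorizationMonoid (Localization.AtPrime m) → ∀ I : Ideal A, I.IsRadical → (∀ Q ∈ I.minimalPrimes, Q.height = 1) →
  I ≤ m → ∃ t : A, t ≠ 0 ∧ Eqn m I t ∧ ∀ (x : K) (μ : ℕ), x ≠ 0 →
  (∀ (Q : Ideal A) (v : K → ℤ), Q.IsPrime → Q.height = 1 → Q ≤ m → LocV Q v → 0 ≤ v x ∧ (I ≤ Q → (μ : ℤ) ≤ v x)) →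
  ∃ u s : A, s ∉ m ∧ x = algebraMap A K t ^ μ * algebraMap A K u / algebraMap A K s

/-- **RPM** (short to medium; from LVQ, TEQ, GHM, RAD). `I = radical of S A ≤ m`; TEQ for `x = g / (Ψ ω)^μ` with GHM (`I ≤ Q` implies `S ≤ Q ∩ R`). `t` does not depend on `D`, `y`, `Ψ`. -/
def RPM_stmt : Prop := ∀ (k R A F K G : Type u) [Field k] [IsAlgClosed k] [CommRing R] [IsDomain R] [CommRing A] [IsDomain A] [Algebra k R] [Algebra k A]
  [Algebra R A] [IsScalarTower k R A] [FaithfulSMul R A] [Field F] [Field K] [Algebra k F] [Algebra k K] [Algebra R F] [IsFractionRing R F] [Algebra A K]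
  [IsFractionRing A K] [Algebra F K] [Algebra R K] [IsScalarTower k R F] [IsScalarTower k A K] [IsScalarTower k F K] [IsScalarTower R A K]
  [IsScalarTower R F K] [Group G] [Finite G] [MulSemiringAction G A] [SMulCommClass G k A] [SMulCommClass G R A] [Algebra.IsInvariant R A G]
  [IsNoetherianRing R] [IsIntegrallyClosed R] [IsNoetherianRing A] [IsIntegrallyClosed A] (n : ℕ),
  (∀ g : G, g ≠ 1 → ∀ Q : Ideal A, Q.IsPrime → Q.height = 1 → ∃ a : A, g • a - a ∉ Q) →
  ∀ (S : Ideal R) (B : Ideal R → ℚ) (ω : Form k F n) (μ : ℕ) (g : F), ω ≠ 0 → g ≠ 0 → 0 < μ → Boundary S B →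
  ∀ (m : Ideal A) [m.IsMaximal], UniqueFactorizationMonoid (Localization.AtPrime m) → S ≤ m.comap (algebraMap R A) →
  CartierAt S B ω μ (m.comap (algebraMap R A)) g → ∃ t : A, t ≠ 0 ∧ Eqn m (S.map (algebraMap R A)).radical t ∧
  ∀ (D : Fin n → Derivation k K K) (y : Fin n → A), (∀ i j, D i (algebraMap A K (y j)) = if i = j then 1 else 0) →
  ∀ Ψ : Form k F n →ₗ[F] K, IsPsi D Ψ → ∃ u s : A, s ∉ m ∧
    algebraMap F K g / Ψ ω ^ μ = algebraMap A K t ^ μ * algebraMap A K u / algebraMap A K s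

/-! ### invariants -/

/-- **INV** (short to medium). As FGI and NOR of Theorem A: `∏_g (T - g a)` has coefficients in `R`; Artin - Tate; an element of `Frac R` integral over `R` is in the integrally closed `A` and invariant. (`IsIntegrallyClosed` via a fraction `a / b`, `a, b ∈ R`: `a = b c`, `c ∈ A` invariant.) -/
def INV_stmt : Prop := ∀ (k R A G : Type u) [Field k] [CommRing R] [IsDomain R] [CommRing A] [IsDomain A] [Algebra k R] [Algebra k A] [Algebra R A]
  [IsScalarTower k R A] [FaithfulSMul R A] [Group G] [Finite G] [MulSemiringAction G A] [SMulCommClass G R A] [Algebra.IsInvariant R A G],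
  (Algebra.FiniteType k A → Algebra.FiniteType k R) ∧ Algebra.IsIntegral R A ∧ (IsIntegrallyClosed A → IsIntegrallyClosed R)

/-- **GAL** (medium). `G` acts on `K = Frac A`, and `F = Frac R` is the fixed field (`f / g`: multiply by the conjugates of `g`), so `K / F` is Galois (`Mathlib/RingTheory/Invariant/Basic.lean`, `IsFractionRing`, `IsGaloisGroup`). -/
def GAL_stmt : Prop := ∀ (k R A F K G : Type u) [Field k] [IsAlgClosed k] [CommRing R] [IsDomain R] [CommRing A] [IsDomain A] [Algebra k R] [Algebra k A]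
  [Algebra R A] [IsScalarTower k R A] [FaithfulSMul R A] [Field F] [Field K] [Algebra k F] [Algebra k K] [Algebra R F] [IsFractionRing R F] [Algebra A K]
  [IsFractionRing A K] [Algebra F K] [Algebra R K] [IsScalarTower k R F] [IsScalarTower k A K] [IsScalarTower k F K] [IsScalarTower R A K]
  [IsScalarTower R F K] [Group G] [Finite G] [MulSemiringAction G A] [SMulCommClass G k A] [SMulCommClass G R A] [Algebra.IsInvariant R A G],
  FiniteDimensional F K ∧ Algebra.IsSeparable F K ∧ ∀ g : G, ∃ s : K →+* K, (∀ a : A, s (algebraMap A K a) = algebraMap A K (g • a)) ∧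
    ∀ x : F, s (algebraMap F K x) = algebraMap F K x

/-- **TBF** (short). `K` is algebraic over `F`: a transcendence basis of `F / k` is one of `K / k`, and its cardinality is `n`. -/
def TBF_stmt : Prop := ∀ (k F K : Type u) [Field k] [Field F] [Field K] [Algebra k F] [Algebra k K] [Algebra F K] [IsScalarTower k F K] [Algebra.IsAlgebraic F K]
  (n : ℕ) (x : Fin n → K), IsTranscendenceBasis k x → ∃ x : Fin n → F, IsTranscendenceBasis k x

/-- **CEH** (short). `0 < 𝔮 ∩ R < 𝔠 ∩ R` (integral extension of domains: nonzero primes contract to nonzero primes; incomparability). -/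
def CEH_stmt : Prop := ∀ (R A : Type u) [CommRing R] [IsDomain R] [CommRing A] [IsDomain A] [Algebra R A] [FaithfulSMul R A] [Algebra.IsIntegral R A]
  (𝔮 𝔠 : Ideal A), 𝔮.IsPrime → 𝔠.IsPrime → 𝔮 ≠ ⊥ → 𝔮 < 𝔠 → 2 ≤ (𝔠.comap (algebraMap R A)).height

/-- **DSQ** (medium; from DVF, DIS, CEH (and VBD through DIS)). `O`, `w` from DVF; the centre of `O` on `R` is `P = 𝔠 ∩ R`, `𝔠 = {a ∈ A : v a ≥ 1}` (a prime, `𝔮 < 𝔠 ≤ m`), of height `≥ 2` (CEH), `P ≤ M`. DiscrAt gives `s`, `t`; DIS: `v(g) - μ v(Ψ ω) < - c μ`; the left side is `μ v(t) + v(u) - v(s) ≥ μ v(t)`. -/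
def DSQ_stmt : Prop := ∀ (k R A F K G : Type u) [Field k] [IsAlgClosed k] [CommRing R] [IsDomain R] [CommRing A] [IsDomain A] [Algebra k R] [Algebra k A]
  [Algebra R A] [IsScalarTower k R A] [FaithfulSMul R A] [Field F] [Field K] [Algebra k F] [Algebra k K] [Algebra R F] [IsFractionRing R F] [Algebra A K]
  [IsFractionRing A K] [Algebra F K] [Algebra R K] [IsScalarTower k R F] [IsScalarTower k A K] [IsScalarTower k F K] [IsScalarTower R A K]
  [IsScalarTower R F K] [Group G] [Finite G] [MulSemiringAction G A] [SMulCommClass G k A] [SMulCommClass G R A] [Algebra.IsInvariant R A G]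
  [Algebra.IsIntegral R A] [Algebra.IsAlgebraic F K] (n p : ℕ) [Fact p.Prime] [CharP k p] (x : Fin n → F), IsTranscendenceBasis k x →
  ∀ (D : Fin n → Derivation k K K) (Ψ : Form k F n →ₗ[F] K), IsPsi D Ψ → ∀ (ω : Form k F n) (μ : ℕ) (g : F), ω ≠ 0 → g ≠ 0 → 0 < μ →
  ∀ (m : Ideal A) [m.IsMaximal], DiscrAt R ω μ (m.comap (algebraMap R A)) g → ∀ t u s : A, s ∉ m →
  algebraMap F K g / Ψ ω ^ μ = algebraMap A K t ^ μ * algebraMap A K u / algebraMap A K s →
  ∀ (v : K → ℤ) (c : ℤ), DVal v → (∀ c : k, c ≠ 0 → v (algebraMap k K c) = 0) → (∀ a : A, Ge v 0 (algebraMap A K a)) →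
  (∀ a : A, a ∉ m → v (algebraMap A K a) = 0) →
  (∃ a : Fin (n - 1) → K, ∀ Q : MvPolynomial (Fin (n - 1)) k, Q ≠ 0 → aeval a Q ≠ 0 ∧ v (aeval a Q) = 0) →
  ∀ 𝔮 : Ideal A, 𝔮.IsPrime → 𝔮 ≠ ⊥ → (∀ a ∈ 𝔮, Ge v 1 (algebraMap A K a)) → (∃ a : A, Ge v 1 (algebraMap A K a) ∧ a ∉ 𝔮) →
  LogGe F v D c → v (algebraMap A K t) < -c

/-! ### the wild case -/

/-- **WLD** (medium to long; from CRE, DUA, QRR, TAY, PYY, WVL, YWV, WTR, FLG, SGB, PSI, GAL, DSQ). Suppose `σ m ⊆ m` and `σ` has order `p > 2` (`n ≥ 2`, `6 ≤ 3 n (n-1) < 2 p`). `y` from FLG, `D`, `φ`, `v` with the weights `n, ..., 2n - 1` (`n ≥ 2`); `s` from GAL; `σ ≠ 1` on `A` (hypothesis on codimension one: there is a prime of height `1`, or use the last hypothesis). LogGe with `c = p - 1 - ∑ w_i = p - 1 - n(3n-1)/2` (SGB).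
`𝔮` = PYY for `h = 1` (contains `y_0 ≠ 0`, not `y_1`). DSQ: `v(t) < n(3n-1)/2 - (p-1)`. But `t ∈ I ≤ m`, so `v(t) ≥ n` (YWV with `c = n`, `N = 1`), and `p - 1 ≥ 3n(n-1)/2`: a contradiction. -/
def WLD_stmt : Prop := ∀ (k R A F K G : Type u) [Field k] [IsAlgClosed k] [CommRing R] [IsDomain R] [CommRing A] [IsDomain A] [Algebra k R] [Algebra k A]
  [Algebra R A] [IsScalarTower k R A] [FaithfulSMul R A] [Field F] [Field K] [Algebra k F] [Algebra k K] [Algebra R F] [IsFractionRing R F] [Algebra A K]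
  [IsFractionRing A K] [Algebra F K] [Algebra R K] [IsScalarTower k R F] [IsScalarTower k A K] [IsScalarTower k F K] [IsScalarTower R A K]
  [IsScalarTower R F K] [Group G] [Finite G] [MulSemiringAction G A] [SMulCommClass G k A] [SMulCommClass G R A] [Algebra.IsInvariant R A G]
  [Algebra.Smooth k A] [Algebra.IsIntegral R A] (n p : ℕ) [Fact p.Prime] [CharP k p] (x : Fin n → F), IsTranscendenceBasis k x →
  Module.finrank K (Ω[K⁄k]) = n → 2 ≤ n → 3 * n * (n - 1) < 2 * p → (∀ g : G, g ≠ 1 → ∃ a : A, g • a ≠ a) →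
  ∀ (ω : Form k F n) (μ : ℕ) (g : F), ω ≠ 0 → g ≠ 0 → 0 < μ → ∀ (m : Ideal A) [m.IsMaximal],
  DiscrAt R ω μ (m.comap (algebraMap R A)) g → ∀ t : A, t ∈ m →
  (∀ (D : Fin n → Derivation k K K) (y : Fin n → A), (∀ i j, D i (algebraMap A K (y j)) = if i = j then 1 else 0) →
    ∀ Ψ : Form k F n →ₗ[F] K, IsPsi D Ψ → ∃ u s : A, s ∉ m ∧
      algebraMap F K g / Ψ ω ^ μ = algebraMap A K t ^ μ * algebraMap A K u / algebraMap A K s) →
  ∀ σ : G, (∀ a ∈ m, σ • a ∈ m) → orderOf σ ≠ p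

/-- **TRC** (medium). `T = {r ∈ R : r = Tr(c) for some c}` is an ideal. If `T + S ≠ R`, let `M ⊇ T + S` be maximal, `m` a maximal ideal of `A` over `M`, `H` its stabiliser. Choose `a ∈ A` with `a ≡ 1` modulo `m`, `a ≡ 0` modulo the other conjugates of `m` (Chinese remainder theorem). `Tr(a) ≡ |H|` modulo `m`. By Cauchy's theorem `p ∤ |H|`
(an element of order `p` of `H` is excluded), so `Tr(a) ∉ m`; but `Tr(a) ∈ T ⊆ M`. -/
def TRC_stmt : Prop := ∀ (R A G : Type u) [CommRing R] [CommRing A] [Algebra R A] [FaithfulSMul R A] [Group G] [Finite G] [MulSemiringAction G A]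
  [SMulCommClass G R A] [Algebra.IsInvariant R A G] (p : ℕ) [Fact p.Prime] [CharP A p] (S : Ideal R),
  (∀ m : Ideal A, m.IsMaximal → S ≤ m.comap (algebraMap R A) → ∀ σ : G, (∀ a ∈ m, σ • a ∈ m) → orderOf σ ≠ p) →
  ∃ (c : A) (r : R), algebraMap R A r = ∑ᶠ g : G, g • c ∧ r - 1 ∈ S

/-! ### general points -/

/-- **GE1** (medium; from KDI). `Ω[B⁄k]` is a finite `B`-module; choose `e` elements `b_i ∈ B` whose `db_i` are a basis of `Ω[Frac B⁄k]`; the cokernel of `B^e → Ω[B⁄k]` is a finite torsion module, killed by some `f ≠ 0`. Let `m` be a maximal ideal without `f` (Jacobson), `k = B / m`. `Ω[B⁄k] ⊗ k` is generated by the `db_i`, and so is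
`m / m²` by `z_i = b_i - b_i(m)`: the map `Ω[B⁄k] ⊗ k → m / m²`, `db ↦ b - b(m)`, is surjective. -/
def GE1_stmt : Prop := ∀ (k B L : Type u) [Field k] [IsAlgClosed k] [CommRing B] [IsDomain B] [Algebra k B] [Algebra.FiniteType k B] [Field L] [Algebra k L]
  [Algebra B L] [IsScalarTower k B L] [IsFractionRing B L] (e : ℕ) (x : Fin e → L), IsTranscendenceBasis k x →
  ∃ (m : Ideal B) (z : Fin e → B), m.IsMaximal ∧ (∀ i, z i ∈ m) ∧ ∀ b ∈ m, ∃ c : Fin e → k, b - ∑ i, c i • z i ∈ m ^ 2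

/-- **GE2** (medium). Suppose `z_i ∈ B` have algebraically independent residues modulo `𝔮` (lift `z`), `0 ≠ x ∈ 𝔮`. `x, z_1, .., z_e` are algebraically dependent over `k` (transcendence degree `e`): there is `P(X, Z) ≠ 0` with `P(x, z) = 0`, and (`B` a domain, `x ≠ 0`) `X ∤ P`. Modulo `𝔮`: `P(0, z) = 0`, `P(0, Z) ≠ 0`. -/
def GE2_stmt : Prop := ∀ (k B L : Type u) [Field k] [CommRing B] [IsDomain B] [Algebra k B] [Field L] [Algebra k L] [Algebra B L] [IsScalarTower k B L]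
  [IsFractionRing B L] (e : ℕ) (x : Fin e → L), IsTranscendenceBasis k x → ∀ 𝔮 : Ideal B, 𝔮.IsPrime → 𝔮 ≠ ⊥ →
  ¬ ∃ z : Fin e → B ⧸ 𝔮, AlgebraicIndependent k z

/-- **GE4** (medium). By Nakayama the `dy_i` generate `Ω[A⁄k]_m` (as in DUA: `A = k + m`, `m = ∑ k y_i + m²`; `A` is of finite type). So for `a ∈ A` there is `s ∉ m` with `s da = ∑ b_i dy_i` in `Ω[A⁄k]`. In `Ω[L⁄k]`: the image of `s` is not `0` (the kernel of `A → L` is in `m`), `dy_i = 0` for `i < h`, and `Ω[L⁄k]` is generated by the `da`. -/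
def GE4_stmt : Prop := ∀ (k A L : Type u) [Field k] [CommRing A] [Algebra k A] [Algebra.FiniteType k A] [Field L] [Algebra k L] [Algebra A L] [IsScalarTower k A L],
  (∀ l : L, ∃ a b : A, algebraMap A L b ≠ 0 ∧ l = algebraMap A L a / algebraMap A L b) → ∀ m : Ideal A, m.IsMaximal →
  RingHom.ker (algebraMap A L) ≤ m → (∀ a : A, ∃ c : k, a - algebraMap k A c ∈ m) → ∀ (n h : ℕ) (y : Fin n → A), Coord k m y → h ≤ n →
  (∀ i : Fin n, (i : ℕ) < h → algebraMap A L (y i) = 0) → Module.finrank L (Ω[L⁄k]) ≤ n - h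

/-- **GEN** (long; from TRB (or directly), KDI, CRE, QRR, TAY, FFL, PYY, GE1, GE2, GE4). `B = A / Q`, `e` its transcendence degree. GE1 gives `m ⊇ Q` such that `m / (m² + Q)` is generated by `e` elements. Choose `y_0, ..., y_(h-1) ∈ Q` whose classes are a basis of `(Q + m²) / m²`, and complete them to coordinates `y` (`m / m²` has dimension `n`, CRE): `h ≥ n - e`. `𝔮` from PYY for `h`: `𝔮 ⊆ Q`.
Let `L = Frac (A / 𝔮)`, of transcendence degree `e'`. By KDI and GE4 `e' = dim Ω[L⁄k] ≤ n - h ≤ e`. If `𝔮 ≠ Q`: `A / 𝔮` has the nonzero prime `Q / 𝔮` with the quotient `B`, which contains `e ≥ e'` algebraically independent elements, against GE2. So `Q = 𝔮`. -/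
def GEN_stmt : Prop := ∀ (k A K : Type u) [Field k] [IsAlgClosed k] [CommRing A] [IsDomain A] [Algebra k A] [Field K] [Algebra k K] [Algebra A K]
  [IsScalarTower k A K] [IsFractionRing A K] [Algebra.Smooth k A] (n : ℕ), Module.finrank K (Ω[K⁄k]) = n → ∀ Q : Ideal A, Q.IsPrime →
  ∃ (m : Ideal A) (h : ℕ) (y : Fin n → A), m.IsMaximal ∧ Q ≤ m ∧ h ≤ n ∧ Coord k m y ∧ (∀ i : Fin n, (i : ℕ) < h → y i ∈ Q) ∧
  ∀ b ∈ Q, Inn m (Ideal.span {b | ∃ i : Fin n, (i : ℕ) < h ∧ b = y i}) b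

/-- **REG** (short to medium; from FFL, PYY). PYY for `h = 1, 2`: `𝔮_h = {a : Inn m (y_i : i < h) a}` is prime and does not contain `y_h`. If `Inn Q (y_0, y_1) (y_2 x)`, then `s y_2 x ∈ 𝔮_2` for some `s ∉ Q`, so `s x ∈ 𝔮_2`, `s' s x ∈ (y_0, y_1)` with `s' ∉ m`, so `s' s ∉ Q`. The same for `y_1` modulo `y_0`. `y_0 ≠ 0` as `φ y_0 = X_0`. -/
def REG_stmt : Prop := ∀ (k A : Type u) [Field k] [CommRing A] [IsDomain A] [IsNoetherianRing A] [Algebra k A] (n : ℕ) (m : Ideal A) [m.IsMaximal] (y : Fin n → A)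
  (φ : A →ₐ[k] MvPowerSeries (Fin n) k), Taylor m y φ → ∀ Q : Ideal A, Q.IsPrime → Q ≤ m → ∀ h3 : 3 ≤ n, y ⟨0, by omega⟩ ≠ 0 ∧
  (∀ x : A, Inn Q (Ideal.span {y ⟨0, by omega⟩}) (y ⟨1, by omega⟩ * x) → Inn Q (Ideal.span {y ⟨0, by omega⟩}) x) ∧
  ∀ x : A, Inn Q (Ideal.span {y ⟨0, by omega⟩, y ⟨1, by omega⟩}) (y ⟨2, by omega⟩ * x) →
    Inn Q (Ideal.span {y ⟨0, by omega⟩, y ⟨1, by omega⟩}) x

/-- **RON** (medium to long; from DUA, QRR, TAY, PYY, WVL, YWV, WDR (TDR), WLG, WTR, PSI, GAL, DSQ). `D`, `φ`; weights `1, 1, 0, ..., 0`, `c = -2` (WLG; restrict to `f_i ∈ F`). `𝔮` = PYY for `h = 1` (contains `y_0 ≠ 0`, not `y_1`; its elements have value `≥ 1`). DSQ: `v(t) < 2`. `t ∈ Q`, so `s t = α y_0 + β y_1`, `s ∉ m`. If `α, β ∈ Q` then `v(t) ≥ 2` (elements of `Q` have value `≥ 1`: `s' b ∈ (y_0, y_1)`), a contradiction.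
If `α ∉ Q` take `u = y_1`, otherwise `u = y_0`: for `b ∈ Q`, `s' b = γ y_0 + δ y_1`, `α s' b = γ (s t - β y_1) + α δ y_1`. -/
def RON_stmt : Prop := ∀ (k R A F K G : Type u) [Field k] [IsAlgClosed k] [CommRing R] [IsDomain R] [CommRing A] [IsDomain A] [Algebra k R] [Algebra k A]
  [Algebra R A] [IsScalarTower k R A] [FaithfulSMul R A] [Field F] [Field K] [Algebra k F] [Algebra k K] [Algebra R F] [IsFractionRing R F] [Algebra A K]
  [IsFractionRing A K] [Algebra F K] [Algebra R K] [IsScalarTower k R F] [IsScalarTower k A K] [IsScalarTower k F K] [IsScalarTower R A K]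
  [IsScalarTower R F K] [Group G] [Finite G] [MulSemiringAction G A] [SMulCommClass G k A] [SMulCommClass G R A] [Algebra.IsInvariant R A G]
  [Algebra.Smooth k A] [Algebra.IsIntegral R A] (n p : ℕ) [Fact p.Prime] [CharP k p] (x : Fin n → F), IsTranscendenceBasis k x →
  Module.finrank K (Ω[K⁄k]) = n → ∀ h2 : 2 ≤ n, ∀ (ω : Form k F n) (μ : ℕ) (g : F), ω ≠ 0 → g ≠ 0 → 0 < μ → ∀ (m : Ideal A) [m.IsMaximal],
  DiscrAt R ω μ (m.comap (algebraMap R A)) g → ∀ t : A, t ≠ 0 →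
  (∀ (D : Fin n → Derivation k K K) (y : Fin n → A), (∀ i j, D i (algebraMap A K (y j)) = if i = j then 1 else 0) →
    ∀ Ψ : Form k F n →ₗ[F] K, IsPsi D Ψ → ∃ u s : A, s ∉ m ∧
      algebraMap F K g / Ψ ω ^ μ = algebraMap A K t ^ μ * algebraMap A K u / algebraMap A K s) →
  ∀ (Q : Ideal A) (y : Fin n → A), Q.IsPrime → Q ≤ m → t ∈ Q → Coord k m y → y ⟨0, by omega⟩ ∈ Q → y ⟨1, by omega⟩ ∈ Q →
  (∀ b ∈ Q, Inn m (Ideal.span {b | ∃ i : Fin n, (i : ℕ) < 2 ∧ b = y i}) b) → ∃ u ∈ Q, ∀ b ∈ Q, Inn Q (Ideal.span {t, u}) b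

/-! ### normality -/

/-- **UNM** (short to medium). `z q_i = α_i s + β_i t`. `s (α_i q_l - α_l q_i) ∈ (t)`, so `α_i q_l - α_l q_i = γ_il t`, `β_i q_l - β_l q_i = - γ_il s`. `t (γ_01 q_2 - γ_02 q_1 + γ_12 q_0) = 0`, so `γ_01 q_2 ∈ (q_0, q_1)`, `γ_01 = λ q_0 + κ q_1`. `(α_0 - κ t) q_1 = (α_1 + λ t) q_0`, so `α_0 - κ t = q_0 ε`; the same for `β_0 + κ s = q_0 ε'`. `z q_0 = q_0 (ε s + ε' t)`. -/
def UNM_stmt : Prop := ∀ (L : Type u) [CommRing L] [IsDomain L] (s t z q0 q1 q2 : L), t ≠ 0 → (∀ x, t ∣ s * x → t ∣ x) → q0 ≠ 0 →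
  (∀ x, q0 ∣ q1 * x → q0 ∣ x) → (∀ x, q2 * x ∈ Ideal.span {q0, q1} → x ∈ Ideal.span {q0, q1}) →
  z * q0 ∈ Ideal.span {s, t} → z * q1 ∈ Ideal.span {s, t} → z * q2 ∈ Ideal.span {s, t} → z ∈ Ideal.span {s, t}

/-- **DV1** (short to medium). `D = L / (t)` is a reduced noetherian local ring with maximal ideal `(u)`. If `u` is nilpotent in `D` it is `0`, `D` is a field, `s ≠ 0` in `D` (`x = 1`). Otherwise `D` is a discrete valuation ring, integrally closed, `s ≠ 0`: `r / s` is integral over `D`, so `s ∣ r` in `D`. (If `t` is a unit everything is trivial; it is not, as it is in the maximal ideal.) -/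
def DV1_stmt : Prop := ∀ (L : Type u) [CommRing L] [IsLocalRing L] [IsNoetherianRing L] (t u : L), IsLocalRing.maximalIdeal L = Ideal.span {t, u} →
  (Ideal.span {t} : Ideal L).IsRadical → ∀ r s : L, (∀ x, t ∣ s * x → t ∣ x) →
  (∃ (N : ℕ) (a : ℕ → L), 0 < N ∧ t ∣ r ^ N + ∑ i ∈ Finset.range N, a i * r ^ i * s ^ (N - i)) → r ∈ Ideal.span {s, t}

/-- **NRM** (medium to long; from UNM, DV1). Suppose not. In the finite module generated by the class of `r` in `L / (s, t) L`, `L = A_m` (not `0`), there is an associated prime: `x ∈ A` and a prime `Q ≤ m` such that for `z = x r`: not `Inn m (s, t) z`, and `b ∈ Q` iff `Inn m (s, t) (b z)`. `s, t ∈ Q`, `I ≤ Q` (Eqn), and not `Inn Q (s, t) z`. In `A_Q`: `I A_Q = (t)`, radical, and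
`t ∣ s x` implies `t ∣ x`. Tri Q t: (a) `s = d s'`, `t = d t'` in `A_Q`: `s t' = t s'`, so `t ∣ t'`, `t' = t e`, `1 = d e`, but `d ∈ Q`. (b) DV1 in `A_Q`: `r ∈ (s, t) A_Q`, so `z` too. (c) UNM in `A_Q` (`q_i z ∈ (s, t)` as `q_i ∈ Q`). -/
def NRM_stmt : Prop := ∀ (A : Type u) [CommRing A] [IsDomain A] [IsNoetherianRing A] (m : Ideal A) [m.IsMaximal] (I : Ideal A) (t : A), t ≠ 0 → I.IsRadical →
  I ≤ m → Eqn m I t → (∀ Q : Ideal A, Q.IsPrime → Q ≤ m → I ≤ Q → Tri Q t) → ∀ r s : A, (∀ x, s * x ∈ I → x ∈ I) →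
  (∃ (N : ℕ) (a : ℕ → A), 0 < N ∧ r ^ N + ∑ i ∈ Finset.range N, a i * r ^ i * s ^ (N - i) ∈ I) → Inn m (Ideal.span {s, t}) r

/-- **DSC** (medium; from RAD). `f ∈ Frac (R / S)` integral over `R / S`: `f = r / s`, `s ∉ S`, and `r^N + ∑ a_i r^i s^(N-i) ∈ S`. So `r = s a + i`, `a ∈ A`, `i ∈ I` = radical of `S A`. For `g ∈ G`: `s (g a - a) = i - g i ∈ I` (`I` is stable under `G`), so `g a - a ∈ I` (RAD). `a' ` = `Tr(c a) ∈ R`: `Tr(c a) = ∑ g(c) g(a) ≡ ∑ g(c) a = r_0 a ≡ a`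
modulo `I` (`r_0 = Tr(c) ∈ 1 + S`). So `r - s a' ∈ I ∩ R = S` (RAD), `f = a'`. -/
def DSC_stmt : Prop := ∀ (R A G : Type u) [CommRing R] [IsDomain R] [CommRing A] [IsDomain A] [Algebra R A] [FaithfulSMul R A] [Group G] [Finite G]
  [MulSemiringAction G A] [SMulCommClass G R A] [Algebra.IsInvariant R A G] (S : Ideal R), S.IsPrime → S.height = 1 →
  (∃ (c : A) (r : R), algebraMap R A r = ∑ᶠ g : G, g • c ∧ r - 1 ∈ S) →
  (∀ r s : R, s ∉ S → (∃ (N : ℕ) (a : ℕ → R), 0 < N ∧ r ^ N + ∑ i ∈ Finset.range N, a i * r ^ i * s ^ (N - i) ∈ S) →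
    algebraMap R A r ∈ Ideal.span {algebraMap R A s} ⊔ (S.map (algebraMap R A)).radical) → IsIntegrallyClosed (R ⧸ S)

end Pool.Agent.QS
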