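import Pool.Agent.helper51.QS.SpecB
import Pool.Agent.helper51.PC.Bridge

/-!
# Project qs (MP_74cfa5_ag), part C: assembly

See the header of `SpecA.lean` (rules, theorem, proof). Rows of this file: `import Pool.Agent.helper51.QS.SpecC`.
-/

set_option autoImplicit false

namespace Pool.Agent.QS

open Pool.Agent.PC MvPolynomial

universe u

/-- **LCF** (short to medium; from TRB, KDI, CRE, QRR, TAY, FFL, PSU, UFL). `A` is noetherian, `A / m = k` (Nullstellensatz: `A / m` is a finite extension of the algebraically closed `k`). -/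
def LCF_stmt : Prop := ∀ (k A K : Type u) [Field k] [IsAlgClosed k] [CommRing A] [IsDomain A] [Algebra k A] [Field K] [Algebra k K] [Algebra A K]
  [IsScalarTower k A K] [IsFractionRing A K] [Algebra.Smooth k A] (n : ℕ), ringKrullDim A = n →
  (∃ x : Fin n → K, IsTranscendenceBasis k x) ∧ Module.finrank K (Ω[K⁄k]) = n ∧ ∀ (m : Ideal A) [m.IsMaximal],
    (∃ y : Fin n → A, Coord k m y) ∧ (∀ y : Fin n → A, Coord k m y → ∃ φ : A →ₐ[k] MvPowerSeries (Fin n) k, Taylor m y φ) ∧
    UniqueFactorizationMonoid (Localization.AtPrime m)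

/-- **TRI** (medium; from GEN, RON, REG, LCF). `m`, `h`, `y` from GEN (`S ≤ Q ∩ R ≤ m ∩ R`). `h = 0`: all `b ∈ Q` are `0`; (a) with `d = 0`. `h = 1`: (a) with `d = y_0`. (`Inn m` implies `Inn Q` as `Q ≤ m`.) `h = 2`: `g`, `t` of the hypothesis for `m`; RON (`t ∈ I ≤ Q`): `u`. As `t ∈ I`, `s t ∈ (t₀)` with `s ∉ m₀`, so `s ∉ Q`, and `b ∈ Q`, `s' b ∈ (t, u)` gives `s s' b ∈ (t₀, u)`: (b).
`h ≥ 3`: (c) with `y_0, y_1, y_2` (REG, `φ` from LCF). -/
def TRI_stmt : Prop := ∀ (k R A F K G : Type u) [Field k] [IsAlgClosed k] [CommRing R] [IsDomain R] [CommRing A] [IsDomain A] [Algebra k R] [Algebra k A]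
  [Algebra R A] [IsScalarTower k R A] [FaithfulSMul R A] [Field F] [Field K] [Algebra k F] [Algebra k K] [Algebra R F] [IsFractionRing R F] [Algebra A K]
  [IsFractionRing A K] [Algebra F K] [Algebra R K] [IsScalarTower k R F] [IsScalarTower k A K] [IsScalarTower k F K] [IsScalarTower R A K]
  [IsScalarTower R F K] [Group G] [Finite G] [MulSemiringAction G A] [SMulCommClass G k A] [SMulCommClass G R A] [Algebra.IsInvariant R A G]
  [Algebra.Smooth k A] [Algebra.IsIntegral R A] (n p : ℕ) [Fact p.Prime] [CharP k p] (x : Fin n → F), IsTranscendenceBasis k x →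
  Module.finrank K (Ω[K⁄k]) = n → ringKrullDim A = n → 2 ≤ n → ∀ (S : Ideal R) (ω : Form k F n) (μ : ℕ), ω ≠ 0 → 0 < μ →
  (∀ m : Ideal A, m.IsMaximal → S ≤ m.comap (algebraMap R A) → ∃ (g : F) (t : A), g ≠ 0 ∧ t ≠ 0 ∧
    DiscrAt R ω μ (m.comap (algebraMap R A)) g ∧ Eqn m (S.map (algebraMap R A)).radical t ∧
    ∀ (D : Fin n → Derivation k K K) (y : Fin n → A), (∀ i j, D i (algebraMap A K (y j)) = if i = j then 1 else 0) →
      ∀ Ψ : Form k F n →ₗ[F] K, IsPsi D Ψ → ∃ u s : A, s ∉ m ∧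
        algebraMap F K g / Ψ ω ^ μ = algebraMap A K t ^ μ * algebraMap A K u / algebraMap A K s) →
  ∀ Q : Ideal A, Q.IsPrime → (S.map (algebraMap R A)).radical ≤ Q → ∀ (m₀ : Ideal A) (t₀ : A), m₀.IsMaximal → Q ≤ m₀ →
  Eqn m₀ (S.map (algebraMap R A)).radical t₀ → Tri Q t₀

/-- **CORE** (medium to long; from LCF, NRA, INV, GAL, TBF, HTP, RAD, RPM, WLD, TRC, TRI, NRM, DSC). `A` is noetherian, all `A_m` factorial (LCF), so `A`, `R` are integrally closed (NRA, INV), `R` is noetherian, `A / R` integral; GAL, TBF. `g ≠ 1` acts nontrivially on `A` (HTP gives a prime of height `1` over `S`). IsPlt: `ω`, `μ`, and `g` for every `M`. For all maximal `m` with `S ≤ m ∩ R`: `t` from RPM. WLD (`t ∈ I ≤ m`: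
`I ≤ m` as `S A ≤ m`), TRC give `c`. DSC: let `r, s ∈ R`, `s ∉ S`, with an equation modulo `S`. For maximal `m ≥ I`: NRM (TRI; RAD for `s`) gives `Inn m (s, t) r`, `t ∈ I`, so `(s A + I : r)` is not contained in `m`; for `m` not containing `I` the same (`x r ∈ I` for `x ∈ I ∖ m`). So `r ∈ s A + I`. -/
def CORE_stmt : Prop := ∀ (k R A F K G : Type u) [Field k] [IsAlgClosed k] [CommRing R] [IsDomain R] [CommRing A] [IsDomain A] [Algebra k R] [Algebra k A]
  [Algebra R A] [IsScalarTower k R A] [FaithfulSMul R A] [Field F] [Field K] [Algebra k F] [Algebra k K] [Algebra R F] [IsFractionRing R F] [Algebra A K]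
  [IsFractionRing A K] [Algebra F K] [Algebra R K] [IsScalarTower k R F] [IsScalarTower k A K] [IsScalarTower k F K] [IsScalarTower R A K]
  [IsScalarTower R F K] [Group G] [Finite G] [MulSemiringAction G A] [SMulCommClass G k A] [SMulCommClass G R A] [Algebra.IsInvariant R A G]
  [Algebra.Smooth k A] (n p : ℕ) [Fact p.Prime] [CharP k p], 2 ≤ n → 3 * n * (n - 1) < 2 * p → ringKrullDim A = n →
  (∀ g : G, g ≠ 1 → ∀ Q : Ideal A, Q.IsPrime → Q.height = 1 → ∃ a : A, g • a - a ∉ Q) →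
  ∀ (S : Ideal R) (B : Ideal R → ℚ), IsPlt k F R n S B → IsIntegrallyClosed (R ⧸ S)

/-- **SML** (short to medium). `dim R = dim A ≤ 1` (integral extension), so a prime of height `1` is maximal, and `R / S` is a field. -/
def SML_stmt : Prop := ∀ (R A : Type u) [CommRing R] [IsDomain R] [CommRing A] [IsDomain A] [Algebra R A] [FaithfulSMul R A] [Algebra.IsIntegral R A],
  ringKrullDim A ≤ 1 → ∀ S : Ideal R, S.IsPrime → S.height = 1 → IsIntegrallyClosed (R ⧸ S)

/-- **MAIN** (medium; from CORE, SML, INV, LCF, GAL). `R = A^G`, `F = Frac R`, `K = Frac A` with the algebra structure of `Frac R → Frac A` (for example `FractionRing.liftAlgebra`); `Algebra.IsInvariant R A G`. `n ≤ 1`: SML. `n ≥ 2`: `dim_F Ω[F⁄k] = n` (`K / F` is finite separable, `Ω[K⁄k]` has dimension `n`, see `TRF_ne` and its beginning in `Pool/Agent/helper2/PC/TRF.lean`, or KDI for `F`), so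
`BR_plt` (`Pool/Agent/helper51/PC/Bridge.lean`) and `IsPlt_iff` translate the two versions of the definition; CORE. -/
def MAIN_stmt : Prop := ∀ (n p : ℕ), p.Prime → 3 * n * (n - 1) < 2 * p → ∀ (k : Type u) [Field k] [IsAlgClosed k] [CharP k p]
  (A : Type u) [CommRing A] [IsDomain A] [Algebra k A] [Algebra.Smooth k A], ringKrullDim A = n → ∀ (G : Type u) [Group G] [Finite G]
  [MulSemiringAction G A] [SMulCommClass G k A], (∀ g : G, g ≠ 1 → ∀ Q : Ideal A, Q.IsPrime → Q.height = 1 → ∃ a : A, g • a - a ∉ Q) →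
  ∀ (S : Ideal (FixedPoints.subalgebra k A G)) (B : Ideal (FixedPoints.subalgebra k A G) → ℚ),
  PltPair.IsPlt k (FractionRing (FixedPoints.subalgebra k A G)) (FixedPoints.subalgebra k A G) n S B →
  IsIntegrallyClosed (FixedPoints.subalgebra k A G ⧸ S)

end Pool.Agent.QS
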